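import Pool.Agent.Lib.MP_570070_gt.Dc3.Main
import Pool.Agent.Lib.MP_570070_gt.Ex.Three

/-! The analytic torsions of the example exist. -/

open MeasureTheory Filter Topology Set

namespace Pool.Agent.Lib.MP_570070_gt.An

open Pool.Agent.Lib.MP_570070_gt.Ex

theorem exists_torsion_fin (c : Par) {Q : Type} [Group Q] [Finite Q] (g : Ed c → Q) :
    ∃ r, IsTorsion (mfd (grpGl c g)) (core _ (base Q)) r :=
  haveI := compactSpace_mfd (Γ := grpGl c g)
  exists_isTorsion (exists_heat_mfd _) (isOpen_core _)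

theorem exists_torsion (c : Par) {G : Type} [Group G] [Countable G] (g : Ed c → G)
    (K : ℕ → Subgroup G) [∀ i, (K i).Normal] [∀ i, (K i).FiniteIndex] (ha : Antitone K)
    (hi : ⨅ i, K i = ⊥) : ∃ ρ, IsTorsion (mfd (grpGl c g)) (core _ (base G)) ρ := by
  obtain ⟨L, Pt, hP⟩ := exists_heat_mfd (grpGl c g)
  choose L' Pt' hP' using fun i => exists_heat_mfd (grpGl c fun e => (g e : G ⧸ K i))
  obtain ⟨K₀, h1, h2⟩ := core_compact (Γ := grpGl c g) (base_finite G)
  have h := det_class c g K ha hi (upL2 L) (Pt := Pt) (fun k => by rw [upL2_D]; exact hP k)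
    (fun k => by rw [upL2_on]; exact (heat_zeta L (hP k) (isOpen_core _) h1 h2).1)
    (fun k => by
      rw [upL2_on]
      exact (heat_bound L (hP k) (isOpen_core _) h1 h2).imp fun C hC => ⟨3, hC⟩)
    (fun i => upL2 (L' i)) (Pt' := Pt') (fun i k => by rw [upL2_D]; exact hP' i k) fun i k => by
      obtain ⟨K₁, h3, h4⟩ := core_compact (Γ := grpGl c fun e => (g e : G ⧸ K i))
        (base_finite (G ⧸ K i))
      rw [upL2_on]
      exact (heat_zeta (L' i) (hP' i k) (isOpen_core _) h3 h4).1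
  simp only [upL2_on] at h
  exact isTorsion_of L hP (isOpen_core _) h1 h2 h

end Pool.Agent.Lib.MP_570070_gt.An
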