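import Pool.Agent.Lib.MP_570070_gt.Dc3.Xt
import Pool.Agent.Lib.MP_570070_gt.An.UOp
import Pool.Agent.Lib.MP_570070_gt.An.StarPt

/-! Extension of functions with compact support in one period, and a partition of unity. -/

open MeasureTheory Filter Topology Set Metric
open scoped ContDiff InnerProductSpace

namespace Pool.Agent.Lib.MP_570070_gt.An

variable {c : Par} {P : Type} {Γ : Gl c P} {k : ℕ} {b : ℝ} {K S : Set (Eu 3)} {g : Eu 3 → ℝ}
  {p₀ p : P} {y y' : Eu 3} {o : Option (Ed c)} {Ω Ω' : Fam P k}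

theorem mem_sat_self (hy : y ∈ DR c) (h : y ∈ S) : (⟨p₀, ⟨y, hy⟩⟩ : Σ _ : P, DR c) ∈ sat Γ p₀ S :=
  ⟨none, y, h, Link.refl hy, rfl⟩

theorem sat_mono (h : S ⊆ K) : sat Γ p₀ S ⊆ sat Γ p₀ K :=
  fun _ ⟨o, y, h1, h2⟩ => ⟨o, y, h h1, h2⟩

theorem eq_on_sat (h : IsT Γ Ω) (h' : IsT Γ Ω') (e : ∀ y ∈ S, Ω p₀ y = Ω' p₀ y)
    {x : Σ _ : P, DR c} (hx : x ∈ sat Γ p₀ S) : Ω x.1 x.2 = Ω' x.1 x.2 := by
  obtain ⟨o, y, h1, h2, h3⟩ := hx
  rw [h.link _ h2, h'.link _ h2, h3, e y h1]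

theorem f0_comp (t : ℝ) (A : Eu 3 →L[ℝ] Eu 3) : (f0 t).compContinuousLinearMap A = f0 t := rfl

theorem const_on_sat {Ω : Fam P 0} (h : IsT Γ Ω) {t : ℝ} (e : ∀ y ∈ S, Ω p₀ y = f0 t)
    {x : Σ _ : P, DR c} (hx : x ∈ sat Γ p₀ S) : Ω x.1 x.2 = f0 t := by
  obtain ⟨o, y, h1, h2, h3⟩ := hx
  rw [h.link _ h2, h3, e y h1, f0_comp]

/-- The extension of a function given in one period of the piece p₀. -/
noncomputable def extF (Γ : Gl c P) (p₀ : P) (b : ℝ) (g : Eu 3 → ℝ) : Fn P :=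
  fun p y => c0 (extC Γ p₀ b (fun z => f0 (g z)) p y)

/-- Smooth functions with support in a compact subset of one period. -/
abbrev IsG (c : Par) (b : ℝ) (K : Set (Eu 3)) (g : Eu 3 → ℝ) : Prop :=
  IsL c b K fun z => f0 (g z)

theorem isG_of (hK : IsCompact K) (hs : K ⊆ Str c b) (hg : ContDiffOn ℝ ∞ g (DR c))
    (h : ∀ y ∈ DR c, g y ≠ 0 → y ∈ K) : IsG c b K g :=
  ⟨hK, hs, contDiff_f0.comp_contDiffOn hg, fun y hy h1 => h y hy fun h2 => h1 (by simp [h2])⟩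

theorem extF_link (hl : Link o y y') (hb : y' ∈ Str c b) (hp : Γ.go o p = p₀) :
    extF Γ p₀ b g p y = g y' := by
  rw [extF, extC_link hl hb hp, f0_comp, c0_f0]

theorem IsL.extF_off (h : IsG c b K g) (hy : y ∈ DR c) (h1 : ⟨p, ⟨y, hy⟩⟩ ∉ sat Γ p₀ K) :
    ∀ᶠ z in 𝓝 y, extF Γ p₀ b g p z = 0 :=
  (h.off hy h1).mono fun z hz => by rw [extF, hz, c0_zero]

theorem IsL.extF_cases (h : IsG c b K g) (p₀ p : P) (hy : y ∈ DR c) :
    extF Γ p₀ b g p y = 0 ∨ ∃ y' ∈ K, extF Γ p₀ b g p y = g y' := by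
  by_cases h1 : ⟨p, ⟨y, hy⟩⟩ ∈ sat Γ p₀ K
  · obtain ⟨o, y', h2, h3, h4⟩ := h1
    exact .inr ⟨y', h2, extF_link h3 (h.sub h2) h4⟩
  · exact .inl (h.extF_off hy h1).self_of_nhds

theorem gsq_eq_ipUp (z : Eu 3) (ℓ : Eu 3 →L[ℝ] ℝ) :
    gsq c z ℓ = ipUp c z (wedge ℓ (f0 1)) (wedge ℓ (f0 1)) := by
  simp only [ipUp, gsq, wedge_apply, f0_apply, comp_sum]
  simp [sq]

/-- The length of the gradient of a function that is compatible with the identifications. -/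
theorem gsq_link {w : Fn P} (h1 : ∀ p, ContDiffOn ℝ ∞ (w p) (DR c))
    (h2 : ∀ p, ∀ y ∈ DR c, w p (y + per) = w p y)
    (h3 : ∀ p e y y', Flip e y y' → w p y = w (Γ.σ e p) y') (hl : Link o y y') :
    gsq c y (fderiv ℝ (w p) y) = gsq c y' (fderiv ℝ (w (Γ.go o p)) y') := by
  cases o with
  | none =>
    obtain ⟨hy, n, rfl⟩ := hl
    rw [gsq_eq_ipUp, gsq_eq_ipUp, ipUp_congr (y := y) (z := y + n • per) (by simp) (by simp)]
    exact congrArg (fun ℓ => ipUp c y (wedge ℓ (f0 1)) (wedge ℓ (f0 1)))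
      (per_int (fun z hz => fderiv_per (h2 p) hz) hy n).symm
  | some e =>
    obtain ⟨τ, rfl, -, h4⟩ := Flip.exists_local hl
    have h5 : fderiv ℝ (w p) y = (fderiv ℝ (w (Γ.σ e p)) (τ y)).comp (fl e y (τ y)) := by
      rw [EventuallyEq.fderiv_eq (f := w (Γ.σ e p) ∘ τ) (h4.mono fun z hz => h3 p e z _ hz.1)]
      exact ((((h1 _).contDiffAt (isOpen_DR.mem_nhds hl.mem')).differentiableAt
        (by simp)).hasFDerivAt.comp y h4.self_of_nhds.2).fderiv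
    rw [h5, gsq_eq_ipUp, gsq_eq_ipUp, ← Flip.ipUp_fl hl, wedge_comp, f0_comp]
    rfl

theorem IsL.extF_smooth (h : IsG c b K g) (p₀ p : P) :
    ContDiffOn ℝ ∞ (extF Γ p₀ b g p) (DR c) :=
  contDiff_c0.comp_contDiffOn ((h.isT p₀).smooth p)

theorem IsL.extF_per (h : IsG c b K g) (p₀ p : P) (y : Eu 3) (hy : y ∈ DR c) :
    extF Γ p₀ b g p (y + per) = extF Γ p₀ b g p y := congrArg c0 ((h.isT p₀).per p y hy)

theorem IsL.extF_flip (h : IsG c b K g) (p₀ p : P) (e : Ed c) (y y' : Eu 3) (f : Flip e y y') :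
    extF Γ p₀ b g p y = extF Γ p₀ b g (Γ.σ e p) y' := by
  rw [extF, (h.isT p₀).flip p e y y' f, starpt_c0]
  rfl

theorem IsL.extF_bd (h : IsG c b K g) : ∃ B, 0 ≤ B ∧ ∀ {P : Type} (Γ : Gl c P) (p₀ p : P),
    ∀ y ∈ DR c, |extF Γ p₀ b g p y| ≤ B ∧ gsq c y (fderiv ℝ (extF Γ p₀ b g p) y) ≤ B := by
  have hg : ContDiffOn ℝ ∞ g (DR c) := contDiff_c0.comp_contDiffOn h.smooth
  have h1 : ContinuousOn (fun y => |g y| + gsq c y (fderiv ℝ g y)) K := by
    refine (hg.continuousOn.abs.add (continuousOn_finsetSum _ fun i _ => ContinuousOn.pow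
      (ContinuousOn.clm_apply (hg.continuousOn_fderiv_of_isOpen isOpen_DR (by simp))
        (flipc_continuousOn_fr i)) 2)).mono h.subDR
  obtain ⟨B, hB⟩ := h.cpt.exists_bound_of_continuousOn h1
  refine ⟨|B|, abs_nonneg B, fun Γ p₀ p y hy => ?_⟩
  by_cases h2 : ⟨p, ⟨y, hy⟩⟩ ∈ sat Γ p₀ K
  · obtain ⟨o, y', h3, h4, h5⟩ := h2
    have h6 : extF Γ p₀ b g p₀ =ᶠ[𝓝 y'] g :=
      eventually_of_mem ((isOpen_Str b).mem_nhds (h.sub h3)) fun z hz =>
        extF_link (Link.refl hz.1) hz rfl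
    have h8 := (le_abs_self _).trans ((hB y' h3).trans (le_abs_self B))
    rw [extF_link h4 (h.sub h3) h5, gsq_link (h.extF_smooth p₀) (h.extF_per p₀) (h.extF_flip p₀) h4,
      show Γ.go o p = p₀ from h5, h6.fderiv_eq]
    constructor <;> linarith [abs_nonneg (g y'), gsq_nonneg (c := c) (y := y') (fderiv ℝ g y')]
  · have h3 : extF Γ p₀ b g p =ᶠ[𝓝 y] fun _ => 0 := h.extF_off hy h2
    rw [h3.self_of_nhds, h3.fderiv_eq]
    simp [gsq_zero]

theorem IsL.isFn (h : IsG c b K g) (p₀ : P) : IsFn Γ (extF Γ p₀ b g) where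
  smooth := h.extF_smooth p₀
  per := h.extF_per p₀
  flip := h.extF_flip p₀
  bdd := by
    obtain ⟨B, -, hB⟩ := h.extF_bd
    exact ⟨B, hB Γ p₀⟩

theorem eq_of_inPiece (h : IsT Γ Ω) (h' : IsT Γ Ω') (g : InPiece Γ p₀ Ω) (g' : InPiece Γ p₀ Ω')
    (e : ∀ y ∈ DR c, Ω p₀ y = Ω' p₀ y) (p : P) (hy : y ∈ DR c) : Ω p y = Ω' p y := by
  by_cases h1 : p = p₀ ∨ ∃ e, Γ.σ e p = p₀ ∧ sc e y < 1
  · rcases h1 with rfl | ⟨e', rfl, h2⟩
    · exact e y hy
    · have f := flip_flipPt hy h2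
      rw [h.flip p e' _ _ f, h'.flip p e' _ _ f, e _ f.2.1]
  · rw [of_not_not (mt (g p y hy) h1), of_not_not (mt (g' p y hy) h1)]

theorem sum_extF [Fintype P] {n : ℕ} {b : Fin n → ℝ} {K : Fin n → Set (Eu 3)}
    {g : Fin n → Eu 3 → ℝ} (h1 : ∀ j, IsG c (b j) (K j) (g j))
    (h2 : ∀ y ∈ DR c, ∑ j, g j (red (b j) y) = eta c y) (hy : y ∈ DR c) :
    ∑ i : P × Fin n, extF Γ i.1 (b i.2) (g i.2) p y = 1 := by
  classical
  rw [Fintype.sum_prod_type, ← sum_wt_single (Γ := Γ) Finset.univ hy (Finset.mem_univ p)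
    fun _ _ => Finset.mem_univ _]
  refine Finset.sum_congr rfl fun p₀ _ => ?_
  have hT : IsT Γ fun p y => wt Γ (indicator {p₀} 1) p y • f0 1 :=
    ((isFn_wt_ind {p₀}).isT_ofFn (toFinite _)).congr fun p y _ => by
      rw [ofFn, ← f0_smul, mul_one]
  have hc : ∀ q z, c0 ((∑ j, extC Γ p₀ (b j) fun z => f0 (g j z)) q z) =
      ∑ j, extF Γ p₀ (b j) (g j) q z := fun q z => by
    simp only [Finset.sum_apply, extF, c0, ContinuousAlternatingMap.sum_apply]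
  have h3 := congrArg c0 (eq_of_inPiece (IsT.sum Finset.univ fun j _ => (h1 j).isT p₀) hT
    (fun q z hz h => ?_) (lcl_wt p₀ fun _ _ => f0 1).inPiece (fun z hz => starpt_inj0 ?_) p hy)
  · rwa [hc, c0_smul, c0_f0, mul_one] at h3
  · rw [Finset.sum_apply, Finset.sum_apply] at h
    obtain ⟨j, -, h4⟩ := Finset.exists_ne_zero_of_sum_ne_zero h
    obtain ⟨a, h5⟩ := (h1 j).isP
    exact h5.inPiece p₀ q z hz h4
  · rw [hc, c0_smul, c0_f0, mul_one, wt_single_self, ← h2 z hz]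
    refine Finset.sum_congr rfl fun j _ => ?_
    rw [extF, extC, extP_self, c0_f0]

/-- One period of the set where eta does not vanish. -/
def Kw (c : Par) : Set (Eu 3) :=
  {y | y ∈ DR c ∧ (∀ e : Ed c, -1 / 2 ≤ sc e y) ∧ y 2 ∈ Icc 0 (0 + 2 * Real.pi)}

theorem isCompact_Kw : IsCompact (Kw c) := isCompact_core (by norm_num) _ _

theorem Kw_subset : Kw c ⊆ DR c := fun _ h => h.1

theorem exists_weights {n : ℕ} {b : Fin n → ℝ} {K : Fin n → Set (Eu 3)}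
    {φ : Fin n → Eu 3 → ℝ} (h1 : ∀ j, IsG c (b j) (K j) (φ j)) (h0 : ∀ j y, 0 ≤ φ j y)
    (h2 : ∀ y ∈ Kw c, ∑ j, φ j y = 1) : ∃ g : Fin n → Eu 3 → ℝ,
      (∀ j, IsG c (b j) (K j) (g j)) ∧ (∀ j, ∀ y ∈ DR c, 0 ≤ g j y) ∧
      ∀ y ∈ DR c, ∑ j, g j (red (b j) y) = eta c y := by
  set S : Eu 3 → ℝ := fun y => ∑ j, φ j (red (b j) y) with hS
  have s0 : ∀ y, 0 ≤ S y := fun y => Finset.sum_nonneg fun j _ => h0 j _
  have s1 : ContDiffOn ℝ ∞ S (DR c) := ContDiffOn.sum fun j _ =>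
    let ⟨_, h⟩ := (h1 j).isP
    contDiff_c0.comp_contDiffOn h.smooth
  have s2 : ∀ y ∈ DR c, (∀ e : Ed c, -1 / 2 ≤ sc e y) → S y ≠ 0 := fun y hy h => by
    have h3 := link_red 0 hy
    have h4 := h2 _ ⟨h3.mem', fun e => by
      rw [sc_congr e (y := y) (y' := red 0 y) (by simp [red]) (by simp [red])]
      exact h e, Ioc_subset_Icc_self (red_two 0 y)⟩
    obtain ⟨j, -, h5⟩ := Finset.exists_ne_zero_of_sum_ne_zero (h4.trans_ne one_ne_zero)
    have h6 := red_of_link h3 ((h1 j).sub ((h1 j).supp _ h3.mem' fun h7 => h5 (congrArg c0 h7)))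
    refine (lt_of_lt_of_le ((h0 j _).lt_of_ne' h5) ?_).ne'
    rw [← h6]
    exact Finset.single_le_sum (f := fun j => φ j (red (b j) y)) (fun j _ => h0 j _)
      (Finset.mem_univ j)
  have s3 : ContDiffOn ℝ ∞ (fun y => eta c y / S y) (DR c) := fun y hy => by
    have hn := isOpen_DR.mem_nhds hy
    refine ContDiffAt.contDiffWithinAt ?_
    by_cases h : ∀ e : Ed c, -1 / 2 ≤ sc e y
    · exact (contDiffOn_eta.contDiffAt hn).div (s1.contDiffAt hn) (s2 y hy h)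
    · obtain ⟨e, he⟩ := not_forall.1 h
      refine (contDiffAt_const (c := 0)).congr_of_eventuallyEq ?_
      filter_upwards [hn, ((contDiffOn_sc e).continuousOn.continuousAt hn).eventually_lt
        continuousAt_const (not_le.1 he)] with z hz h3
      rw [of_not_not (mt (fun h4 => sc_ge_of_eta_ne hz h4 e) h3.not_ge), zero_div]
  refine ⟨fun j y => φ j y * (eta c y / S y), fun j => isG_of (h1 j).cpt (h1 j).sub
    ((contDiff_c0.comp_contDiffOn (h1 j).smooth).mul s3) fun y hy h => (h1 j).supp y hy fun h3 =>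
      left_ne_zero_of_mul h (congrArg c0 h3), fun j y hy => mul_nonneg (h0 j y)
        (div_nonneg (eta_nonneg hy) (s0 y)), fun y hy => ?_⟩
  have h3 : ∀ j, eta c (red (b j) y) / S (red (b j) y) = eta c y / S y := fun j =>
    per_int (F := fun y => eta c y / S y) (fun z _ => by
      simp only [hS, red_per, eta_congr (y := z) (y' := z + per) (by simp) (by simp)]) hy _
  simp only [h3, ← Finset.sum_mul]
  by_cases h : eta c y = 0
  · simp [h]
  · exact mul_div_cancel₀ _ (s2 y hy (sc_ge_of_eta_ne hy h))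

end Pool.Agent.Lib.MP_570070_gt.An
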