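import Pool.Agent.Lib.MP_570070_gt.An.Ext

/-! Identifications of points of the pieces, and nested covers by small balls. -/

open MeasureTheory Filter Topology Set Metric
open scoped ContDiff

namespace Pool.Agent.Lib.MP_570070_gt.An

noncomputable section

variable {c : Par} {P : Type} {Γ : Gl c P} {k : ℕ}

/-- Translation by periods, or gluing along a collar. -/
def Link : Option (Ed c) → Eu 3 → Eu 3 → Prop
  | none, y, y' => y ∈ DR c ∧ ∃ n : ℤ, y' = y + n • per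
  | some e, y, y' => Flip e y y'

/-- The piece on the other side. -/
def Gl.go (Γ : Gl c P) : Option (Ed c) → P → P
  | none, p => p
  | some e, p => Γ.σ e p

/-- The differential of the identification. -/
def lk : Option (Ed c) → Eu 3 → Eu 3 → Eu 3 →L[ℝ] Eu 3
  | none, _, _ => ContinuousLinearMap.id ℝ (Eu 3)
  | some e, y, y' => fl e y y'

variable {o o' : Option (Ed c)} {y y' y'' : Eu 3}

theorem Gl.go_go (Γ : Gl c P) (o : Option (Ed c)) (p : P) : Γ.go o (Γ.go o p) = p := by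
  cases o with
  | none => rfl
  | some e => exact Γ.invol e p

theorem Link.mem (h : Link o y y') : y ∈ DR c := by
  cases o with
  | none => exact h.1
  | some e => exact And.left h

theorem Link.symm (h : Link o y y') : Link o y' y := by
  cases o with
  | none =>
    obtain ⟨hy, n, rfl⟩ := h
    exact ⟨add_zsmul_per_mem hy n, -n, by simp⟩
  | some e => exact Flip.symm h

theorem Link.mem' (h : Link o y y') : y' ∈ DR c := h.symm.mem

theorem Link.refl (hy : y ∈ DR c) : Link (none : Option (Ed c)) y y := ⟨hy, 0, by simp⟩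

theorem Link.trans (h : Link o y y') (h' : Link o' y' y'') : ∃ o'' : Option (Ed c),
    Link o'' y y'' ∧ ∀ {P : Type} (Γ : Gl c P) (p : P), Γ.go o'' p = Γ.go o' (Γ.go o p) := by
  rcases o with _ | e <;> rcases o' with _ | e'
  · obtain ⟨hy, n, rfl⟩ := h
    obtain ⟨-, m, rfl⟩ := h'
    exact ⟨none, ⟨hy, n + m, by rw [add_smul, add_assoc]⟩, fun _ _ => rfl⟩
  · obtain ⟨hy, n, rfl⟩ := h
    exact ⟨some e', show Flip e' y y'' by simpa using Flip.add_per_left h' (-n), fun _ _ => rfl⟩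
  · obtain ⟨-, m, rfl⟩ := h'
    exact ⟨some e, Flip.add_per_right h m, fun _ _ => rfl⟩
  · obtain rfl := (Flip.symm h).edge_eq h'
    exact ⟨none, ⟨h.mem, (Flip.symm h).unique h'⟩, fun Γ p => (Γ.invol e p).symm⟩

theorem Link.exists_local (h : Link o y y') : ∃ τ : Eu 3 → Eu 3, τ y = y' ∧ ContinuousAt τ y ∧
    ∀ᶠ z in 𝓝 y, Link o z (τ z) := by
  cases o with
  | none =>
    obtain ⟨hy, n, rfl⟩ := h
    exact ⟨fun z => z + n • per, rfl, by fun_prop,
      (isOpen_DR.eventually_mem hy).mono fun z hz => ⟨hz, n, rfl⟩⟩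
  | some e =>
    obtain ⟨τ, h1, h2, h3⟩ := Flip.exists_local h
    exact ⟨τ, h1, h2.continuousAt, h3.mono fun z hz => hz.1⟩

theorem not_link {x x' : Eu 3} (hx : x ∈ DR c) (hx' : x' ∈ DR c) (h : ¬Link o x x') :
    ∀ᶠ z : Eu 3 × Eu 3 in 𝓝 (x, x'), ¬Link o z.1 z.2 := by
  cases o with
  | none =>
    have h1 : Continuous fun z : Eu 3 × Eu 3 =>
        (z.2 0 - z.1 0, z.2 1 - z.1 1, Real.cos (z.2 2 - z.1 2)) := by fun_prop
    refine (h1.continuousAt.eventually_ne (y := (0, 0, 1)) fun h2 => h ⟨hx, ?_⟩).mono ?_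
    · simp only [Prod.mk.injEq, Real.cos_eq_one_iff] at h2
      obtain ⟨h3, h4, n, h5⟩ := h2
      refine ⟨n, funext fun i => ?_⟩
      fin_cases i <;> simp <;> linarith
    · rintro z hz ⟨-, n, e⟩
      exact hz (by simp [e, Real.cos_eq_one_iff])
  | some e =>
    have hs := (contDiffOn_sc e).continuousOn
    have hr := (contDiff_rsq e).continuous
    have h1 : ContinuousAt (fun z : Eu 3 × Eu 3 => (sc e z.2 + sc e z.1,
        z.2 0 - ctr e - √(rsq e z.2) * Real.cos (z.1 2),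
        z.2 1 - c.ε e * (√(rsq e z.2) * Real.sin (z.1 2)),
        z.1 0 - ctr e - √(rsq e z.1) * Real.cos (z.2 2),
        z.1 1 - c.ε e * (√(rsq e z.1) * Real.sin (z.2 2)))) (x, x') :=
      ((ContinuousAt.snd' (hs.continuousAt (isOpen_DR.mem_nhds hx'))).add
        (ContinuousAt.fst' (hs.continuousAt (isOpen_DR.mem_nhds hx)))).prodMk (by fun_prop)
    refine (h1.eventually_ne (y := 0) fun h2 => h ?_).mono ?_
    · simp only [Prod.mk_eq_zero, sub_eq_zero] at h2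
      exact ⟨hx, hx', by linarith [h2.1], h2.2⟩
    · rintro z hz ⟨-, -, h2, h3⟩
      refine hz ?_
      simp only [Prod.mk_eq_zero, sub_eq_zero]
      exact ⟨by linarith, h3⟩

theorem IsT.link {Ω : Fam P k} (h : IsT Γ Ω) (p : P) (hl : Link o y y') :
    Ω p y = (Ω (Γ.go o p) y').compContinuousLinearMap (lk o y y') := by
  cases o with
  | none =>
    obtain ⟨hy, n, rfl⟩ := hl
    exact (per_int (h.per p) hy n).symm
  | some e => exact h.flip p e y y' hl

/-- The points that are identified with a point of S in the piece p₀. -/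
def sat (Γ : Gl c P) (p₀ : P) (S : Set (Eu 3)) : Set (Σ _ : P, DR c) :=
  {x | ∃ o, ∃ y' ∈ S, Link o x.2.1 y' ∧ Γ.go o x.1 = p₀}

theorem isOpen_sat (p₀ : P) {S : Set (Eu 3)} (hS : IsOpen S) : IsOpen (sat Γ p₀ S) := by
  refine isOpen_sigma_iff.2 fun p => isOpen_iff_mem_nhds.2 ?_
  rintro y ⟨o, y', h1, h2, h3⟩
  obtain ⟨τ, rfl, h4, h5⟩ := h2.exists_local
  exact (continuous_subtype_val.tendsto y).eventually
    ((h5.and (h4.eventually (hS.mem_nhds h1))).mono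
      (q := fun z => ∃ o, ∃ y' ∈ S, Link o z y' ∧ Γ.go o p = p₀)
      fun z hz => ⟨o, _, hz.2, hz.1, h3⟩)

theorem off_sat {K : Set (Eu 3)} (hK : IsCompact K) (hD : K ⊆ DR c) {p₀ p : P} (hy : y ∈ DR c)
    (h : ⟨p, ⟨y, hy⟩⟩ ∉ sat Γ p₀ K) :
    ∀ᶠ z in 𝓝 y, ∀ o, Γ.go o p = p₀ → ∀ y' ∈ K, ¬Link o z y' := by
  refine eventually_all.2 fun o => ?_
  by_cases h1 : Γ.go o p = p₀
  · exact (hK.eventually_forall_of_forall_eventually (P := fun z y' => ¬Link o z y')
      fun y' h2 => not_link hy (hD h2) fun h3 => h ⟨o, y', h2, h3, h1⟩).mono fun z hz _ => hz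
  · exact Eventually.of_forall fun _ h2 => absurd h2 h1

theorem link_near {x x' : Eu 3} (hx : x ∈ DR c) (hx' : x' ∈ DR c) {r' : ℝ} (hr' : 0 < r') :
    ∃ V ∈ 𝓝 (x, x'), ∀ a ∈ V, ∀ b ∈ V, ∀ o : Option (Ed c), Link o a.1 a.2 →
      ∃ z' ∈ ball b.2 r', Link o b.1 z' := by
  refine eventually_prod_self_iff.1 (eventually_all.2 fun o => ?_)
  by_cases h : Link o x x'
  · obtain ⟨τ, rfl, h6, h7⟩ := h.exists_local
    have h1 := (continuous_fst.tendsto (x, τ x)).eventually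
      (h7.and (h6.eventually (ball_mem_nhds (τ x) (half_pos hr'))))
    have h2 := (continuous_snd.tendsto (x, τ x)).eventually (ball_mem_nhds (τ x) (half_pos hr'))
    refine (tendsto_snd.eventually (h1.and h2)).mono fun z hz _ => ⟨_, ?_, hz.1.1⟩
    have h3 := dist_triangle_right (τ z.2.1) z.2.2 (τ x)
    have h4 : dist (τ z.2.1) (τ x) < r' / 2 := hz.1.2
    have h5 : dist z.2.2 (τ x) < r' / 2 := hz.2
    exact mem_ball.2 (by linarith)
  · exact (tendsto_fst.eventually (not_link hx hx' h)).mono fun z hz t => (hz t).elim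

theorem exists_radius {K : Set (Eu 3)} (hK : IsCompact K) (hKD : K ⊆ DR c) {r' : ℝ}
    (hr' : 0 < r') : ∃ r, 0 < r ∧ 2 * r ≤ r' ∧ ∀ x ∈ K, ∀ x' ∈ K, ∀ o : Option (Ed c),
      ∀ y ∈ ball x r, ∀ y' ∈ ball x' r, Link o y y' →
        ∀ z ∈ ball x r, ∃ z' ∈ ball x' r', Link o z z' := by
  choose V hV hV' using fun (q : Eu 3 × Eu 3) (hq : q ∈ K ×ˢ K) =>
    link_near (hKD hq.1) (hKD hq.2) hr'
  obtain ⟨δ, hδ, h⟩ := lebesgue_number_lemma_of_metric
    (c := fun q : K ×ˢ K => interior (V q.1 q.2)) (hK.prod hK) (fun _ => isOpen_interior)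
    fun q hq => mem_iUnion.2 ⟨⟨q, hq⟩, mem_interior_iff_mem_nhds.2 (hV q hq)⟩
  refine ⟨min δ (r' / 2), lt_min hδ (half_pos hr'), by linarith [min_le_right δ (r' / 2)],
    fun x hx x' hx' o y hy y' hy' hl z hz => ?_⟩
  obtain ⟨q, hq⟩ := h (x, x') ⟨hx, hx'⟩
  replace hq := hq.trans interior_subset
  rw [← ball_prod_same] at hq
  have h1 := fun w : Eu 3 => ball_subset_ball (x := w) (min_le_left δ (r' / 2))
  exact hV' _ _ (y, y') (hq ⟨h1 x hy, h1 x' hy'⟩) (z, x') (hq ⟨h1 x hz, mem_ball_self hδ⟩) o hl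

/-- One period that starts at the angle b. -/
def Str (c : Par) (b : ℝ) : Set (Eu 3) := {y | y ∈ DR c ∧ y 2 ∈ Ioo b (b + 2 * Real.pi)}

theorem isOpen_Str (b : ℝ) : IsOpen (Str c b) :=
  isOpen_DR.inter (isOpen_Ioo.preimage (continuous_apply 2))

theorem Str_subset (b : ℝ) : Str c b ⊆ DR c := fun _ h => h.1

theorem exists_radii {K : Set (Eu 3)} (hK : IsCompact K) (hKD : K ⊆ DR c) (L : ℕ) :
    ∃ r : ℕ → ℝ, (∀ m, 0 < r m) ∧ (∀ m < L, 2 * r m ≤ r (m + 1)) ∧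
      (∀ x ∈ K, closedBall x (2 * r L) ⊆ Str c (x 2 - Real.pi)) ∧
      ∀ m < L, ∀ x ∈ K, ∀ x' ∈ K, ∀ {P : Type} (Γ : Gl c P) (p p' : P),
        (sat Γ p (ball x (r m)) ∩ sat Γ p' (ball x' (r m))).Nonempty →
          sat Γ p (ball x (r m)) ⊆ sat Γ p' (ball x' (r (m + 1))) := by
  induction L with
  | zero =>
    obtain ⟨δ, hδ, h⟩ := hK.exists_cthickening_subset_open isOpen_DR hKD
    refine ⟨fun _ => min δ 1 / 2, fun _ => by positivity, fun m hm => by omega, fun x hx z hz => ?_,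
      fun m hm => by omega⟩
    rw [mul_div_cancel₀ _ two_ne_zero] at hz
    have h1 := (dist_le_pi_dist z x 2).trans (hz.trans (min_le_right δ 1))
    rw [Real.dist_eq, abs_le] at h1
    exact ⟨h (mem_cthickening_of_dist_le z x δ K hx (hz.trans (min_le_left δ 1))),
      by linarith [Real.pi_gt_three, h1.1], by linarith [Real.pi_gt_three, h1.2]⟩
  | succ L ih =>
    obtain ⟨r, h1, h2, h3, h4⟩ := ih
    obtain ⟨ρ, p1, p2, p3⟩ := exists_radius hK hKD (h1 0)
    refine ⟨fun m => Nat.casesOn m ρ r, fun m => by cases m <;> simp [p1, h1], fun m hm => ?_, h3,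
      fun m hm => ?_⟩
    · cases m with
      | zero => exact p2
      | succ m => exact h2 m (by omega)
    · cases m with
      | succ m => exact h4 m (by omega)
      | zero =>
        rintro x hx x' hx' P Γ _ _ ⟨u, ⟨o₁, y, a1, a2, rfl⟩, o₂, y', b1, b2, rfl⟩ v
          ⟨o₃, z, c1, c2, c3⟩
        obtain ⟨o₄, e1, e2⟩ := a2.symm.trans b2
        obtain ⟨z', d1, d2⟩ := p3 x hx x' hx' _ y a1 y' b1 e1 z c1
        obtain ⟨o₅, f1, f2⟩ := c2.trans d2
        exact ⟨o₅, z', d1, f1, by rw [f2, c3, e2, Γ.go_go]⟩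

theorem exists_pou {K : Set (Eu 3)} (hK : IsCompact K) {r : ℝ} (hr : 0 < r) :
    ∃ (n : ℕ) (x : Fin n → Eu 3) (φ : Fin n → Eu 3 → ℝ), (∀ j, x j ∈ K) ∧
      (∀ j, ContDiff ℝ ∞ (φ j)) ∧ (∀ j y, φ j y ≠ 0 → y ∈ closedBall (x j) (r / 2)) ∧
      (∀ j y, 0 ≤ φ j y) ∧ ∀ y ∈ K, ∑ j, φ j y = 1 := by
  obtain ⟨t, h1, h2, h3⟩ := finite_cover_balls_of_compact hK (half_pos hr)
  have := h2.to_subtype
  obtain ⟨n, ⟨e⟩⟩ := Finite.exists_equiv_fin t
  obtain ⟨f, hf⟩ := SmoothPartitionOfUnity.exists_isSubordinate (modelWithCornersSelf ℝ (Eu 3))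
    hK.isClosed (fun j => ball (e.symm j).1 (r / 2)) (fun _ => isOpen_ball) fun y hy => by
      obtain ⟨x, hx, hy'⟩ := mem_iUnion₂.1 (h3 hy)
      exact mem_iUnion.2 ⟨e ⟨x, hx⟩, by simpa using hy'⟩
  refine ⟨n, fun j => (e.symm j).1, fun j => f j, fun j => h1 (e.symm j).2,
    fun j => (f j).contMDiff.contDiff,
    fun j y hy => ball_subset_closedBall (hf j (subset_tsupport _ hy)), f.nonneg, fun y hy => ?_⟩
  rw [← finsum_eq_sum_of_fintype]
  exact f.sum_eq_one hy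

theorem exists_cutoff {K U : Set (Eu 3)} (hK : IsCompact K) (hU : IsOpen U) (h : K ⊆ U) :
    ∃ (K' : Set (Eu 3)) (ζ : Eu 3 → ℝ), IsCompact K' ∧ K' ⊆ U ∧ ContDiff ℝ ∞ ζ ∧
      (∀ y, ζ y ≠ 0 → y ∈ K') ∧ (∀ y, 0 ≤ ζ y ∧ ζ y ≤ 1) ∧ ∀ y ∈ K, ∀ᶠ z in 𝓝 y, ζ z = 1 := by
  obtain ⟨L, hL, hKL, hLU⟩ := exists_compact_between hK hU h
  obtain ⟨f, h1, h0, hf⟩ := exists_contMDiffMap_one_nhds_of_subset_interior (n := ⊤)
    (modelWithCornersSelf ℝ (Eu 3)) hK.isClosed hKL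
  exact ⟨L, f, hL, hLU, f.contMDiff.contDiff, fun y hy => by_contra fun h => hy (h0 y h), hf,
    eventually_nhdsSet_iff_forall.1 h1⟩

end

end Pool.Agent.Lib.MP_570070_gt.An
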