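import Pool.Agent.Lib.MP_570070_gt.Dc3.Fn
import Pool.Agent.Lib.MP_75c153_gt.Dc.DPoin

/-! Local estimates in one period, uniform in the gluing pattern. -/

open MeasureTheory Filter Topology Set Metric
open scoped ContDiff InnerProductSpace
open Pool.Agent.Lib.MP_75c153_gt.Dc

namespace Pool.Agent.Lib.MP_570070_gt.An

variable {c : Par} {b : ℝ} {K : Set (Eu 3)} {g : Eu 3 → ℝ} {x : Eu 3} {r R : ℝ}

/-- The lengths of the coordinate vectors. -/
noncomputable def ell (c : Par) (y : Eu 3) : Fin 3 → ℝ := ![lam c y, lam c y, 1]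

theorem apply_fr {k : ℕ} (y : Eu 3) (α : Alt 3 k) (I : Fin k → Fin 3) :
    (α fun l => fr c y (I l)) = (∏ l, (ell c y (I l))⁻¹) * α fun l => bas (I l) := by
  have e : ∀ i, fr c y i = (ell c y i)⁻¹ • bas i := fun i => by fin_cases i <;> simp [fr, ell]
  simp only [e]
  exact α.toContinuousMultilinearMap.map_smul_univ (fun l => (ell c y (I l))⁻¹) fun l => bas (I l)

theorem ell_pos {y : Eu 3} (hy : y ∈ DR c) (i : Fin 3) : 0 < ell c y i := by
  fin_cases i <;> simp [ell, lam_pos hy]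

theorem exists_ell_bd (hK : IsCompact K) (hD : K ⊆ DR c) : ∃ L : ℝ, 1 ≤ L ∧ ∀ y ∈ K,
    (∀ i, ell c y i ≤ L ∧ (ell c y i)⁻¹ ≤ L) ∧ lam c y ^ 2 ≤ L ∧ (lam c y ^ 2)⁻¹ ≤ L := by
  have hc : ContinuousOn (fun y => lam c y + (lam c y)⁻¹) (DR c) := contDiffOn_lam.continuousOn.add
    (contDiffOn_lam.continuousOn.inv₀ fun y hy => (lam_pos hy).ne')
  obtain ⟨A, hA⟩ := hK.bddAbove_image (hc.mono hD)
  have h0 := le_max_left 1 A
  refine ⟨max 1 A ^ 2, one_le_pow₀ h0, fun y hy => ?_⟩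
  have h1 : lam c y + (lam c y)⁻¹ ≤ max 1 A := (hA ⟨y, hy, rfl⟩).trans (le_max_right _ _)
  have h2 := lam_pos (hD hy)
  have h3 := inv_pos.2 h2
  have h4 : max 1 A ≤ max 1 A ^ 2 := le_self_pow₀ h0 two_ne_zero
  refine ⟨fun i => ?_, pow_le_pow_left₀ h2.le (by linarith) 2, ?_⟩
  · fin_cases i
    · exact ⟨show lam c y ≤ _ by linarith, show (lam c y)⁻¹ ≤ _ by linarith⟩
    · exact ⟨show lam c y ≤ _ by linarith, show (lam c y)⁻¹ ≤ _ by linarith⟩
    · exact ⟨h0.trans h4, show (1 : ℝ)⁻¹ ≤ _ by rw [inv_one]; exact h0.trans h4⟩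
  · rw [← inv_pow]
    exact pow_le_pow_left₀ h3.le (by linarith) 2

theorem exists_ipUp_cmp (hK : IsCompact K) (hD : K ⊆ DR c) (k : ℕ) : ∃ C : ℝ, 0 ≤ C ∧ ∀ y ∈ K,
    ∀ a : Alt 3 k, ipUp c y a a * lam c y ^ 2 ≤ C * ∑ I : Fin k → Fin 3, (a fun l => bas (I l)) ^ 2 ∧
      ∑ I : Fin k → Fin 3, (a fun l => bas (I l)) ^ 2 ≤ C * (ipUp c y a a * lam c y ^ 2) := by
  obtain ⟨L, hL, H⟩ := exists_ell_bd hK hD
  refine ⟨k.factorial * (L ^ k) ^ 2 * L, by positivity, fun y hy a => ?_⟩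
  obtain ⟨h1, h2, h3⟩ := H y hy
  have hv := pow_pos (lam_pos (hD hy)) 2
  have hl := fun i => ell_pos (hD hy) i
  have hf : (1 : ℝ) ≤ k.factorial := Nat.one_le_cast.2 k.factorial_pos
  have e1 : ipUp c y a a = ((k.factorial : ℝ))⁻¹ * ∑ I : Fin k → Fin 3,
      (∏ l, (ell c y (I l))⁻¹) ^ 2 * (a fun l => bas (I l)) ^ 2 := by
    rw [ipUp]
    exact congrArg _ (Finset.sum_congr rfl fun I _ => by rw [apply_fr]; ring)
  have b1 : ∀ I : Fin k → Fin 3, ∏ l, (ell c y (I l))⁻¹ ≤ L ^ k := fun I => by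
    simpa using Finset.prod_le_prod (s := Finset.univ) (fun l _ => (inv_pos.2 (hl (I l))).le)
      fun l _ => (h1 (I l)).2
  have b2 : ∀ I : Fin k → Fin 3, 1 ≤ L ^ k * ∏ l, (ell c y (I l))⁻¹ := fun I => by
    have : ∏ l, ell c y (I l) ≤ L ^ k := by
      simpa using Finset.prod_le_prod (s := Finset.univ) (fun l _ => (hl (I l)).le)
        fun l _ => (h1 (I l)).1
    rw [Finset.prod_inv_distrib, ← div_eq_mul_inv,
      one_le_div (Finset.prod_pos fun l _ => hl (I l))]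
    exact this
  have p1 : ∀ I : Fin k → Fin 3, 0 ≤ ∏ l, (ell c y (I l))⁻¹ := fun I =>
    Finset.prod_nonneg fun l _ => (inv_pos.2 (hl (I l))).le
  set S := ∑ I : Fin k → Fin 3, (a fun l => bas (I l)) ^ 2
  set T := ∑ I : Fin k → Fin 3, (∏ l, (ell c y (I l))⁻¹) ^ 2 * (a fun l => bas (I l)) ^ 2
  have s0 : 0 ≤ S := Finset.sum_nonneg fun _ _ => sq_nonneg _
  have t0 : 0 ≤ T := Finset.sum_nonneg fun _ _ => by positivity
  have s1 : T ≤ (L ^ k) ^ 2 * S := by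
    rw [Finset.mul_sum]
    exact Finset.sum_le_sum fun I _ => mul_le_mul_of_nonneg_right
      (pow_le_pow_left₀ (p1 I) (b1 I) 2) (sq_nonneg _)
  have s2 : S ≤ (L ^ k) ^ 2 * T := by
    rw [Finset.mul_sum]
    refine Finset.sum_le_sum fun I _ => ?_
    rw [← mul_assoc, ← mul_pow]
    exact le_mul_of_one_le_left (sq_nonneg _) (one_le_pow₀ (b2 I))
  have v1 : 1 ≤ L * lam c y ^ 2 := by
    rw [← div_le_iff₀ hv, one_div]
    exact h3
  rw [e1]
  constructor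
  · have : ((k.factorial : ℝ))⁻¹ ≤ k.factorial := (inv_le_one_of_one_le₀ hf).trans hf
    calc _ ≤ k.factorial * ((L ^ k) ^ 2 * S) * L := by gcongr
      _ = _ := by ring
  · calc S ≤ (L ^ k) ^ 2 * T * (L * lam c y ^ 2) :=
          s2.trans (le_mul_of_one_le_right (by positivity) v1)
      _ = _ := by field_simp

theorem exists_cmp (hK : IsCompact K) (hD : K ⊆ DR c) (k : ℕ) : ∃ C : ℝ, 0 ≤ C ∧ ∀ y ∈ K,
    ∀ a : Alt 3 k, ipUp c y a a * lam c y ^ 2 ≤ C * ‖a‖ ^ 2 ∧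
      ‖a‖ ^ 2 ≤ C * (ipUp c y a a * lam c y ^ 2) := by
  obtain ⟨C, hC, h⟩ := exists_ipUp_cmp hK hD k
  let ev : Alt 3 k →L[ℝ] ((Fin k → Fin 3) → ℝ) := ContinuousLinearMap.pi fun I =>
    ContinuousAlternatingMap.apply ℝ (Eu 3) ℝ fun l => Pi.basisFun ℝ (Fin 3) (I l)
  obtain ⟨G, hG⟩ := ContinuousLinearMap.HasLeftInverse.of_injective_of_finiteDimensional (f := ev)
    fun α β e => ContinuousAlternatingMap.toAlternatingMap_injective
      ((Pi.basisFun ℝ (Fin 3)).ext_alternating fun I _ => congrFun e I)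
  have hev : ∀ a I, ev a I = a fun l => bas (I l) := fun a I => by simp [ev, bas]
  refine ⟨C * (3 ^ k * ‖ev‖ ^ 2 + ‖G‖ ^ 2), by positivity, fun y hy a => ?_⟩
  have h0 : 0 ≤ ipUp c y a a * lam c y ^ 2 := mul_nonneg (ipUp_self_nonneg a) (sq_nonneg _)
  have h1 : ∑ I : Fin k → Fin 3, (a fun l => bas (I l)) ^ 2 ≤ 3 ^ k * (‖ev‖ * ‖a‖) ^ 2 := by
    refine (Finset.sum_le_card_nsmul _ _ ((‖ev‖ * ‖a‖) ^ 2) fun I _ => ?_).trans_eq (by simp)
    rw [← hev, ← sq_abs]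
    exact pow_le_pow_left₀ (abs_nonneg _) ((norm_le_pi_norm (ev a) I).trans (ev.le_opNorm a)) 2
  have h2 : ‖ev a‖ ^ 2 ≤ ∑ I : Fin k → Fin 3, (a fun l => bas (I l)) ^ 2 := by
    rw [← Real.le_sqrt (norm_nonneg _) (by positivity), pi_norm_le_iff_of_nonneg (by positivity)]
    exact fun I => Real.abs_le_sqrt (hev a I ▸ Finset.single_le_sum
      (f := fun I : Fin k → Fin 3 => (a fun l => bas (I l)) ^ 2) (fun _ _ => sq_nonneg _)
        (Finset.mem_univ I))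
  have h3 := pow_le_pow_left₀ (norm_nonneg _) (G.le_opNorm (ev a)) 2
  rw [hG a, mul_pow] at h3
  constructor
  · nlinarith [(h y hy a).1, mul_le_mul_of_nonneg_left h1 hC,
      mul_nonneg hC (mul_nonneg (sq_nonneg ‖G‖) (sq_nonneg ‖a‖))]
  · nlinarith [mul_le_mul_of_nonneg_left (h2.trans (h y hy a).2) (sq_nonneg ‖G‖),
      mul_nonneg (show 0 ≤ C * (3 ^ k * ‖ev‖ ^ 2) by positivity) h0]

theorem int_le (hK : IsCompact K) (hs : K ⊆ Str c b) (k : ℕ) : ∃ C : ℝ, 0 ≤ C ∧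
    ∀ {P : Type} {Γ : Gl c P} (U : UpL2 Γ) (p : P) (Ω : Fam P k), IsT Γ Ω → ∀ S ⊆ K,
      ∫ y in S, ‖Ω p y‖ ^ 2 ≤ C * ‖U.j k Ω‖ ^ 2 := by
  have hD := hs.trans (Str_subset b)
  obtain ⟨C, hC, h⟩ := exists_cmp hK hD k
  refine ⟨C, hC, fun U p Ω hΩ S hS => ?_⟩
  have h1 := (hΩ.smooth p).continuousOn
  have h2 : IntegrableOn (fun y => ‖Ω p y‖ ^ 2) K :=
    ((h1.mono hD).norm.pow 2).integrableOn_compact hK
  refine ((setIntegral_mono_set h2 (Eventually.of_forall fun y => sq_nonneg _)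
    hS.eventuallyLE).trans ?_).trans (mul_le_mul_of_nonneg_left (U.int_le_norm hΩ p hK hs) hC)
  rw [← integral_const_mul]
  exact setIntegral_mono_on h2 (((((continuousOn_ipUp h1 h1).mul
    (contDiffOn_lam.continuousOn.pow 2)).mono hD).integrableOn_compact hK).const_mul C) hK.measurableSet
      fun y hy => (h y hy _).2

theorem ext_le (hK : IsCompact K) (hs : K ⊆ Str c b) (k : ℕ) : ∃ C : ℝ, 0 ≤ C ∧
    ∀ {P : Type} {Γ : Gl c P} (U : UpL2 Γ) (p : P) (α : Eu 3 → Alt 3 k), IsL c b K α →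
      ‖U.j k (extC Γ p b α)‖ ^ 2 ≤ C * ∫ y in K, ‖α y‖ ^ 2 := by
  have hD := hs.trans (Str_subset b)
  obtain ⟨C, hC, h⟩ := exists_cmp hK hD k
  refine ⟨C, hC, fun U p α hα => ?_⟩
  have h1 := hα.smooth.continuousOn
  rw [hα.norm_sq U p, setIntegral_eq_of_subset_of_forall_sdiff_eq_zero
    (isOpen_Str b).measurableSet hs fun y hy => by
      rw [of_not_not (mt (hα.supp y hy.1.1) hy.2), ipUp_zero_left, zero_mul], ← integral_const_mul]
  exact setIntegral_mono_on ((hα.integrableOn h1).mono_set hs)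
    ((((h1.mono hD).norm.pow 2).integrableOn_compact hK).const_mul C) hK.measurableSet
      fun y hy => (h y hy _).1

theorem le_of_sq {u v C A : ℝ} (hv : 0 ≤ v) (h : u ^ 2 ≤ C * v ^ 2) (hA : √C ≤ A) :
    u ≤ A * v := by
  refine (Real.le_sqrt_of_sq_le h).trans ?_
  rw [Real.sqrt_mul' _ (sq_nonneg v), Real.sqrt_sq hv]
  exact mul_le_mul_of_nonneg_right hA hv

theorem sm_indicator {B : Type} [NormedAddCommGroup B] [NormedSpace ℝ B] {F : Eu 3 → B}
    {U : Set (Eu 3)} (hU : IsOpen U) (hF : ContDiffOn ℝ ∞ F U) (hK : IsCompact K) (hKU : K ⊆ U)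
    (hs : ∀ y ∈ U, F y ≠ 0 → y ∈ K) : ContDiff ℝ ∞ (U.indicator F) := by
  refine contDiff_iff_contDiffAt.2 fun y => ?_
  by_cases hy : y ∈ U
  · refine (hF.contDiffAt (hU.mem_nhds hy)).congr_of_eventuallyEq ?_
    filter_upwards [hU.mem_nhds hy] with z hz using indicator_of_mem hz _
  · refine (contDiffAt_const (c := 0)).congr_of_eventuallyEq ?_
    filter_upwards [hK.isClosed.isOpen_compl.mem_nhds fun h => hy (hKU h)] with z hz
    by_contra h
    have h1 : z ∈ U := mem_of_indicator_ne_zero h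
    rw [indicator_of_mem h1] at h
    exact hz (hs z h1 h)

theorem prim_chart (hr : 0 < r) (hR : r < R) (hD : closedBall x R ⊆ Str c b) (k : ℕ) :
    ∀ᶠ A in atTop, ∀ {P : Type} {Γ : Gl c P} (U : UpL2 Γ) (p : P) (Ω : Fam P (k + 1)), IsT Γ Ω →
      (∀ y ∈ ball x R, dF Ω p y = 0) → ∃ Θ, IsT Γ Θ ∧ (∀ y ∈ ball x r, dF Θ p y = Ω p y) ∧
        ‖U.j k Θ‖ ≤ A * ‖U.j (k + 1) Ω‖ := by
  obtain ⟨K₁, ζ₁, a1, a2, a3, a5, -, a4⟩ := exists_cutoff (isCompact_closedBall x R) (isOpen_Str b) hD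
  obtain ⟨K₂, ζ₂, b1, b2, b3, b6, b4, b5⟩ := exists_cutoff (isCompact_closedBall x r) isOpen_ball
    (closedBall_subset_ball hR)
  have hb := ball_subset_closedBall.trans hD
  obtain ⟨C₁, c1, c2⟩ := int_le (isCompact_closedBall x R) hD (k + 1)
  obtain ⟨C₂, d1, d2⟩ := ext_le b1 (b2.trans hb) k
  filter_upwards [eventually_ge_atTop √(C₂ * (4 * R ^ 2 * 2 ^ 3 * C₁))] with A hA
  intro P Γ U p Ω hΩ h
  have h1 := sm_indicator (F := fun y => ζ₁ y • Ω p y) isOpen_DR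
    (a3.contDiffOn.smul (hΩ.smooth p)) a1 (a2.trans (Str_subset b))
    fun y _ h => a5 y (left_ne_zero_of_smul h)
  have h2 : ∀ y ∈ ball x R, (DR c).indicator (fun y => ζ₁ y • Ω p y) =ᶠ[𝓝 y] Ω p := fun y hy =>
    EventuallyEq.trans (eventually_of_mem (isOpen_DR.mem_nhds (hb hy).1) fun z hz =>
      indicator_of_mem hz _)
      ((a4 y (ball_subset_closedBall hy)).mono fun z hz => by simp [hz])
  obtain ⟨κ, h3, h4, h5⟩ := poincare x (hr.trans hR) h1 fun y hy =>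
    (h2 y hy).extDeriv_eq.trans (h y hy)
  have h6 : IsL c b K₂ fun y => ζ₂ y • κ y := ⟨b1, b2.trans hb, (b3.smul h3).contDiffOn,
    fun y _ h => b6 y (left_ne_zero_of_smul h)⟩
  refine ⟨_, h6.isT p, fun y hy => ?_, le_of_sq (norm_nonneg _) ((d2 U p _ h6).trans ?_) hA⟩
  · have h7 := ball_subset_ball hR.le hy
    rw [dF_extC_self (hb h7), ← (h2 y h7).self_of_nhds, ← h4 y h7]
    exact EventuallyEq.extDeriv_eq ((b5 y (ball_subset_closedBall hy)).mono fun z hz => by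
      simp [hz])
  · rw [mul_assoc, mul_assoc]
    refine mul_le_mul_of_nonneg_left (le_trans ?_ (h5.trans (mul_le_mul_of_nonneg_left
      (le_trans (le_of_eq ?_) (c2 U p Ω hΩ _ ball_subset_closedBall)) (by positivity)))) d1
    · have h7 : IntegrableOn (fun y => ‖κ y‖ ^ 2) (ball x R) :=
        ((h3.continuous.norm.pow 2).continuousOn.integrableOn_compact
          (isCompact_closedBall x R)).mono_set ball_subset_closedBall
      refine (setIntegral_mono_on (((b3.smul h3).continuous.norm.pow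
        2).continuousOn.integrableOn_compact b1) (h7.mono_set b2) b1.measurableSet
        fun y _ => ?_).trans (setIntegral_mono_set h7 (Eventually.of_forall fun y => sq_nonneg _)
          b2.eventuallyLE)
      refine pow_le_pow_left₀ (norm_nonneg (ζ₂ y • κ y)) ?_ 2
      rw [norm_smul, Real.norm_of_nonneg (b4 y).1]
      exact mul_le_of_le_one_left (norm_nonneg _) (b4 y).2
    · exact setIntegral_congr_fun measurableSet_ball fun y hy => by
        simp only [(h2 y hy).self_of_nhds]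

theorem const_le (hr : 0 < r) (hD : closedBall x r ⊆ Str c b) :
    ∀ᶠ A in atTop, ∀ {P : Type} {Γ : Gl c P} (U : UpL2 Γ) (p : P) (Ω : Fam P 0) (t : ℝ),
      IsT Γ Ω → (∀ y ∈ ball x r, Ω p y = f0 t) → |t| ≤ A * ‖U.j 0 Ω‖ := by
  obtain ⟨C, -, h⟩ := int_le (isCompact_closedBall x r) hD 0
  have hv : 0 < volume.real (ball x r) :=
    ENNReal.toReal_pos (measure_ball_pos _ x hr).ne' measure_ball_lt_top.ne
  filter_upwards [eventually_ge_atTop √(C / volume.real (ball x r))] with A hA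
  intro P Γ U p Ω t hΩ h1
  have h2 := h U p Ω hΩ _ ball_subset_closedBall
  rw [setIntegral_congr_fun measurableSet_ball (g := fun _ => |t| ^ 2) fun y hy => by
    simp [h1 y hy, f0], setIntegral_const, smul_eq_mul] at h2
  refine le_of_sq (norm_nonneg _) ?_ hA
  rwa [div_mul_eq_mul_div, le_div_iff₀' hv]

theorem wed_le (h : IsG c b K g) (k : ℕ) :
    ∀ᶠ A in atTop, ∀ {P : Type} {Γ : Gl c P} (U : UpL2 Γ) (p₀ : P) (Ω : Fam P k), IsT Γ Ω →
      ‖U.j (k + 1) ((Tr.ofFn (h.isFn (Γ := Γ) p₀)).wed Ω)‖ ≤ A * ‖U.j k Ω‖ := by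
  obtain ⟨B, -, hB⟩ := h.extF_bd
  filter_upwards [eventually_ge_atTop √((k + 1) * B)] with A hA
  intro P Γ U p₀ Ω hΩ
  have h1 := (Tr.ofFn (h.isFn p₀)).isT_wed hΩ
  refine le_of_sq (norm_nonneg _) ?_ hA
  rw [U.norm_sq_intF h1, U.norm_sq_intF hΩ, ← intF_const_mul (hΩ.isC_ip hΩ)]
  refine intF_mono (h1.isC_ip h1) ((hΩ.isC_ip hΩ).const_mul _) fun p y hy => ?_
  exact (ipUp_wedge_le _ _).trans (mul_le_mul_of_nonneg_right
    (mul_le_mul_of_nonneg_left (hB Γ p₀ p y hy).2 (by positivity)) (ipUp_self_nonneg _))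

theorem one_le (h : IsG c b K g) :
    ∀ᶠ A in atTop, ∀ {P : Type} {Γ : Gl c P} (U : UpL2 Γ) (p : P),
      ‖U.j 0 (extC Γ p b fun z => f0 (g z))‖ ≤ A := by
  filter_upwards [eventually_ge_atTop
    √(∫ y in Str c b, ipUp c y (f0 (g y)) (f0 (g y)) * lam c y ^ 2)] with A hA
  intro P Γ U p
  exact (Real.le_sqrt_of_sq_le (h.norm_sq U p).le).trans hA

end Pool.Agent.Lib.MP_570070_gt.An
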