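import Pool.Agent.Lib.MP_570070_gt.Dc3.Mod
import Pool.Agent.Lib.MP_75c153_gt.Dc.DAbs
import Pool.Agent.Lib.MP_570070_gt.An.LocMain
import Pool.Agent.Lib.MP_570070_gt.An.Star

/-! The covers that are limits of finite covers are of determinant class. -/

open MeasureTheory Filter Topology Set
open scoped ContDiff InnerProductSpace
open Pool.Agent.Lib.MP_75c153_gt.Dc
open Pool.Agent.Lib.MP_75c153_gt.Ft (StarPair)

namespace Pool.Agent.Lib.MP_570070_gt.An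

theorem UpL2.starPair {c : Par} {P : Type} {Γ : Gl c P} (U : UpL2 Γ) :
    ∃ (V₀ : U.H 0 ≃ₗᵢ[ℝ] U.H 3) (V₁ : U.H 1 ≃ₗᵢ[ℝ] U.H 2),
      StarPair (k := 0) (l := 2) U.D V₀ V₁ (-1) ∧ StarPair (k := 1) (l := 1) U.D V₁ V₁.symm 1 := by
  obtain ⟨V₀, h₀⟩ := U.exists_st0
  obtain ⟨V₁, h₁⟩ := U.exists_st1
  have e₀ : ∀ Θ, IsT Γ Θ → V₀ (U.j 0 fun p y => st3 c y (Θ p y)) = U.j 3 Θ := fun Θ h =>
    (h₀ _ h.st3).trans (U.j_congr h fun p y hy => st0_st3 hy _)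
  have e₁ : ∀ Θ, IsT Γ Θ → V₁ (U.j 1 fun p y => st2 c y (Θ p y)) = U.j 2 Θ := fun Θ h =>
    (h₁ _ h.st2).trans (U.j_congr h fun p y hy => st1_st2 hy _)
  have t1 : ∀ a, (∃ b, U.D 1 a b) ↔ ∃ b, U.D 2 (V₁ a) b := fun a => by
    constructor
    · rintro ⟨_, Ω, h, rfl, -⟩
      exact ⟨_, _, h.st1, h₁ Ω h, rfl⟩
    · rintro ⟨_, Θ, h, e, -⟩
      exact ⟨_, _, h.st2, V₁.injective (e.trans (e₁ Θ h).symm), rfl⟩
  refine ⟨V₀, V₁, ⟨by norm_num, fun a => ⟨?_, ?_⟩, t1, ?_⟩, by norm_num, t1, fun a => ?_, ?_⟩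
  · rintro ⟨_, Ω, h, rfl, -⟩
    exact ⟨_, _, h.st0, h₀ Ω h, rfl⟩
  · rintro ⟨_, Θ, h, e, -⟩
    exact ⟨_, _, h.st3, V₀.injective (e.trans (e₀ Θ h).symm), rfl⟩
  · rintro _ _ β _ ⟨Ω, h, rfl, rfl⟩ ⟨Ω', h', e, rfl⟩
    rw [V₁.injective (e.trans (e₁ Ω' h').symm), h₀ Ω h, neg_one_mul]
    exact U.stokes0 h h'
  · rw [t1, V₁.apply_symm_apply]
  · rintro _ _ β _ ⟨Ω, h, rfl, rfl⟩ ⟨Ω', h', e, rfl⟩
    rw [← V₁.apply_symm_apply β, e, h₁ Ω h, h₁ Ω' h', one_mul]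
    exact U.stokes1 h h'

/-- The uniform bound on the finite covers. -/
theorem sum_grp (c : Par) : ∃ C : ℝ, 0 ≤ C ∧ ∀ {Q : Type} [Group Q] [Finite Q] (g : Ed c → Q)
    (U : UpL2 (grpGl c g)), ∀ k ≤ 1, ∀ {Pt : ℝ → U.H k →L[ℝ] U.H k}, IsHeat (dom U.D k) Pt →
      (∀ t, 0 < t → trOn (U.on k (base Q)) (Pt t) ≠ ⊤) → ∀ b,
      Tendsto (fun t => (trOn (U.on k (base Q)) (Pt t)).toReal) atTop (𝓝 b) → ∀ M,
        ∑ j ∈ Finset.range M, ((trOn (U.on k (base Q)) (Pt (2 * 4 ^ j + 2))).toReal - b) ≤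
          C * (1 + (trOn (U.on k (base Q)) (Pt 2)).toReal) := by
  obtain ⟨A, N, n, hA, h1⟩ := exists_cech c 9
  obtain ⟨C, B, hC, hB, h2⟩ := primS_of_cech hA N 9
  refine ⟨(2 + 2 * C) * (2 * (B * (2 * n))) + 4 * C, by positivity, ?_⟩
  intro Q _ _ g U k hk Pt hP hf b hb M
  have := Fintype.ofFinite Q
  obtain ⟨𝒞, hD⟩ := h1 U
  have h3 : ∀ l, 3 * l + 3 ≤ 9 → PrimS U.D l C (B * (2 * n) * Fintype.card Q) := fun l hl =>
    (h2 𝒞 U.D hD l hl).mono le_rfl (le_of_eq (by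
      simp only [Fintype.card_prod, Fintype.card_bool, Fintype.card_fin]
      push_cast
      ring))
  have hadd : ∀ k a b a' b', U.D k a b → U.D k a' b' → U.D k (a + a') (b + b') := by
    simp only [hD]
    rintro k _ _ _ _ ⟨α, rfl, rfl⟩ ⟨β, rfl, rfl⟩
    exact ⟨α + β, by simp, by simp⟩
  have hsm : ∀ k (t : ℝ) a b, U.D k a b → U.D k (t • a) (t • b) := by
    simp only [hD]
    rintro k t _ _ ⟨α, rfl, rfl⟩
    exact ⟨t • α, by simp, by simp⟩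
  have hz : ∀ k, U.D k 0 0 := fun k => (hD k 0 0).2 ⟨0, by simp, by simp⟩
  obtain ⟨V₀, V₁, p₀, p₁⟩ := U.starPair
  obtain ⟨𝒯⟩ := exists_tiling c g U hP
  rw [← U.coe_onS] at hf hb ⊢
  match k, hk with
  | 0, _ =>
    exact sum_zero hadd hsm hz U.dense_test p₀ hP 𝒯 hf hC (by positivity) (h3 2 le_rfl) hb M
  | 1, _ =>
    exact sum_succ (k := 0) (l := 1) hadd hsm hz U.dense_test (fun _ _ => U.dd) p₁ hP 𝒯 hf hC
      (by positivity) (h3 0 (by norm_num)) (h3 1 (by norm_num)) hb M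

/-- Locality of the heat traces along the chain, from a polynomial bound for small times. -/
theorem local_grp' (c : Par) {G : Type} [Group G] (g : Ed c → G) (K : ℕ → Subgroup G)
    [∀ i, (K i).Normal] (ha : Antitone K) (hi : ⨅ i, K i = ⊥) {k : ℕ} (hk : k ≤ 1)
    (U : UpL2 (grpGl c g)) {Pt : ℝ → U.H k →L[ℝ] U.H k} (hP : IsHeat (dom U.D k) Pt)
    (hf : ∀ t, 0 < t → trOn (U.on k (base G)) (Pt t) ≠ ⊤) {C : ℝ} {N : ℕ}
    (hC : ∀ t ∈ Ioc (0 : ℝ) 1, (trOn (U.on k (base G)) (Pt t)).toReal ≤ C / t ^ N)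
    (U' : ∀ i, UpL2 (grpGl c fun e => (g e : G ⧸ K i)))
    {Pt' : ∀ i, ℝ → (U' i).H k →L[ℝ] (U' i).H k} (hP' : ∀ i, IsHeat (dom (U' i).D k) (Pt' i))
    (hf' : ∀ i t, 0 < t → trOn ((U' i).on k (base (G ⧸ K i))) (Pt' i t) ≠ ⊤) (T ε : ℝ)
    (hε : 0 < ε) : ∀ᶠ i in atTop, ∀ t ∈ Ioc (0 : ℝ) T,
      |(trOn ((U' i).on k (base (G ⧸ K i))) (Pt' i t)).toReal -
        (trOn (U.on k (base G)) (Pt t)).toReal| ≤ ε * t := by
  classical
  obtain ⟨c₀, -, hc⟩ := exists_grad_kap c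
  obtain ⟨r₀, hr⟩ := heat_local (2 * (2 * c₀)) (2 * (Fintype.card (Ed c) + 1) ^ 8) C T ε N hε
  obtain ⟨ℓ, h1, h2, h3, h4⟩ := (grpGl c g).exists_lev {(1, true), (1, false)}
    (2 * (r₀ + 1) + 4 + 3)
  filter_upwards [eventually_injOn K ha hi
    ((grpGl c g).ball {(1, true), (1, false)} (2 * (r₀ + 1) + 4 + 2))] with i inj
  have hb : (fun p : G × Bool => (((p.1 : G ⧸ K i), p.2) : (G ⧸ K i) × Bool)) '' base G =
      base (G ⧸ K i) := by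
    ext ⟨x, b⟩
    constructor
    · rintro ⟨⟨y, b'⟩, hy, h⟩
      have h5 : y = 1 := hy
      exact (congrArg Prod.fst h).symm.trans (by simp [h5])
    · intro h
      have h5 : x = 1 := h
      exact ⟨(1, b), rfl, by simp [h5]⟩
  obtain ⟨𝓛⟩ := exists_locData (Γ := grpGl c g) (Γ' := grpGl c fun e => (g e : G ⧸ K i)) hc
    (fun p : G × Bool => (((p.1 : G ⧸ K i), p.2) : (G ⧸ K i) × Bool))
    (fun e p => by rcases p with ⟨x, _ | _⟩ <;> simp [grpGl]) h1 h2 (r₀ + 1)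
    (inj.mono fun p hp => h4 _ (by omega) p hp) (S := base G)
    (fun p hp => h3 p (by
      have h5 : p.1 = 1 := hp
      rcases p with ⟨x, _ | _⟩ <;> simp_all))
    _ (fun p hp => h4 _ (by omega) p hp) (G := 2 * (Fintype.card (Ed c) + 1) ^ 8) (by
      have h5 := ((grpGl c g).card_ball {(1, true), (1, false)} (2 * (r₀ + 1) + 4 + 2)).trans
        (Nat.mul_le_mul Finset.card_le_two (Nat.pow_le_pow_right (Nat.succ_pos _)
          (show 2 * (r₀ + 1) + 4 + 2 ≤ 8 * (r₀ + 1) by omega)))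
      have h6 := h5.trans (Nat.mul_le_mul_right _ (Nat.le_self_pow (Nat.succ_ne_zero r₀) 2))
      rw [pow_mul, ← mul_pow] at h6
      exact_mod_cast h6) hk U (U' i) (Pt := Pt) fun p t ht => tr_piece U hP p ht.le
  rw [hb] at 𝓛
  have := hr (r₀ + 1) (Nat.le_succ _) (isHeat₂_of_isHeat hP) (isHeat₂_of_isHeat (hP' i)) 𝓛
  simp only [UpL2.coe_onS] at this
  exact this hf (hf' i) hC

/-- Determinant class, from the finite covers. -/
theorem det_class (c : Par) {G : Type} [Group G] (g : Ed c → G) (K : ℕ → Subgroup G)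
    [∀ i, (K i).Normal] [∀ i, (K i).FiniteIndex] (ha : Antitone K) (hi : ⨅ i, K i = ⊥)
    (U : UpL2 (grpGl c g)) {Pt : ∀ k, ℝ → U.H k →L[ℝ] U.H k} (hP : ∀ k, IsHeat (dom U.D k) (Pt k))
    (hf : ∀ k t, 0 < t → trOn (U.on k (base G)) (Pt k t) ≠ ⊤)
    (hC : ∀ k, ∃ (C : ℝ) (N : ℕ), ∀ t ∈ Ioc (0 : ℝ) 1,
      (trOn (U.on k (base G)) (Pt k t)).toReal ≤ C / t ^ N)
    (U' : ∀ i, UpL2 (grpGl c fun e => (g e : G ⧸ K i)))
    {Pt' : ∀ i k, ℝ → (U' i).H k →L[ℝ] (U' i).H k}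
    (hP' : ∀ i k, IsHeat (dom (U' i).D k) (Pt' i k))
    (hf' : ∀ i k t, 0 < t → trOn ((U' i).on k (base (G ⧸ K i))) (Pt' i k t) ≠ ⊤) :
    ∀ k ≤ 3, ∀ b, Tendsto (fun t => (trOn (U.on k (base G)) (Pt k t)).toReal) atTop (𝓝 b) →
      IntegrableOn (fun t => t⁻¹ * ((trOn (U.on k (base G)) (Pt k t)).toReal - b)) (Ioi 1) := by
  obtain ⟨C, h0, h1⟩ := sum_grp c
  have low : ∀ k ≤ 1, ∀ b,
      Tendsto (fun t => (trOn (U.on k (base G)) (Pt k t)).toReal) atTop (𝓝 b) →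
      IntegrableOn (fun t => t⁻¹ * ((trOn (U.on k (base G)) (Pt k t)).toReal - b)) (Ioi 1) := by
    intro k hk b hb
    obtain ⟨C', N, h2⟩ := hC k
    exact det_limit (heat_tr_antitone (isHeat₂_of_isHeat (hP k)) _ (hf k))
      (fun i => heat_tr_antitone (isHeat₂_of_isHeat (hP' i k)) _ (hf' i k))
      (fun _ _ => ENNReal.toReal_nonneg)
      (local_grp' c g K ha hi hk U (hP k) (hf k) h2 U' (fun i => hP' i k) fun i => hf' i k) h0
      (fun i => h1 _ (U' i) k hk (hP' i k) (hf' i k)) hb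
  have key : ∀ {k l}, l ≤ 1 → (∀ t, 0 ≤ t → trOn (U.on k (base G)) (Pt k t) =
      trOn (U.on l (base G)) (Pt l t)) → ∀ b,
      Tendsto (fun t => (trOn (U.on k (base G)) (Pt k t)).toReal) atTop (𝓝 b) →
      IntegrableOn (fun t => t⁻¹ * ((trOn (U.on k (base G)) (Pt k t)).toReal - b)) (Ioi 1) :=
    fun hl e b hb => (low _ hl b (hb.congr' ((eventually_ge_atTop 0).mono fun t ht => by
      simp only [e t ht]))).congr_fun (fun t ht => by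
        simp only [e t (zero_le_one.trans (le_of_lt ht))]) measurableSet_Ioi
  intro k hk
  match k, hk with
  | 0, _ => exact low 0 (by norm_num)
  | 1, _ => exact low 1 le_rfl
  | 2, _ => exact key (l := 1) le_rfl fun t ht => (U.star_trace hP _ ht).2
  | 3, _ => exact key (l := 0) (by norm_num) fun t ht => (U.star_trace hP _ ht).1

end Pool.Agent.Lib.MP_570070_gt.An
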