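import Pool.Agent.Lib.MP_570070_gt.Dc3.Loc
import Pool.Agent.Lib.MP_75c153_gt.Dc.DDefs

/-! The double complex of the manifolds glued from finitely many pieces. -/

open MeasureTheory Filter Topology Set Metric
open scoped ContDiff InnerProductSpace
open Pool.Agent.Lib.MP_75c153_gt.Dc

namespace Pool.Agent.Lib.MP_570070_gt.An

noncomputable section

variable {c : Par} {P : Type} {Γ : Gl c P} {k : ℕ} {w : Fn P}

/-- The test families. -/
def tst (Γ : Gl c P) (k : ℕ) : Submodule ℝ (Fam P k) where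
  carrier := {Ω | IsT Γ Ω}
  add_mem' := IsT.add
  zero_mem' := IsT.zero
  smul_mem' t _ h := h.smul t

def tstJ (U : UpL2 Γ) (k : ℕ) : tst Γ k →ₗ[ℝ] U.H k where
  toFun Ω := U.j k Ω
  map_add' Ω Ω' := U.j_add Ω.2 Ω'.2
  map_smul' t Ω := U.j_smul Ω.2 t

def tstEv (Γ : Gl c P) (k : ℕ) (x : Σ _ : P, DR c) : tst Γ k →ₗ[ℝ] Alt 3 k where
  toFun Ω := Ω.1 x.1 x.2
  map_add' _ _ := rfl
  map_smul' _ _ := rfl

def tstD (Γ : Gl c P) (k : ℕ) : tst Γ k →ₗ[ℝ] tst Γ (k + 1) where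
  toFun Ω := ⟨fun p => (DR c).indicator (dF Ω.1 p),
    (IsT.dF Ω.2).congr fun _ _ hy => indicator_of_mem hy _⟩
  map_add' Ω Ω' := Subtype.ext (funext₂ fun p y => by
    by_cases hy : y ∈ DR c
    · simpa [hy, dF] using extDeriv_add (IsT.differentiableAt Ω.2 p hy)
        (IsT.differentiableAt Ω'.2 p hy)
    · simp [hy])
  map_smul' t Ω := Subtype.ext (funext₂ fun p y => by
    by_cases hy : y ∈ DR c
    · simpa [hy, dF] using extDeriv_smul t (Ω.1 p) (x := y)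
    · simp [hy])

theorem ev_D (Ω : tst Γ k) (x : Σ _ : P, DR c) :
    tstEv Γ (k + 1) x (tstD Γ k Ω) = dF Ω.1 x.1 x.2 := indicator_of_mem x.2.2 _

def tstM (hw : IsFn Γ w) (k : ℕ) : tst Γ k →ₗ[ℝ] tst Γ k where
  toFun Ω := ⟨fun p y => w p y • Ω.1 p y, hw.isT_smul Ω.2⟩
  map_add' _ _ := Subtype.ext (funext₂ fun _ _ => smul_add _ _ _)
  map_smul' t Ω := Subtype.ext (funext₂ fun p y => smul_comm (w p y) t (Ω.1 p y))

/-- The exterior product with a covector. -/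
def wedgeL (ℓ : Eu 3 →L[ℝ] ℝ) (k : ℕ) : Alt 3 k →ₗ[ℝ] Alt 3 (k + 1) where
  toFun := wedge ℓ
  map_add' := wedge_add_right ℓ
  map_smul' t := wedge_smul_right t ℓ

def tstW (hw : IsFn Γ w) (k : ℕ) : tst Γ k →ₗ[ℝ] tst Γ (k + 1) where
  toFun Ω := ⟨(Tr.ofFn hw).wed Ω.1, (Tr.ofFn hw).isT_wed Ω.2⟩
  map_add' _ _ := Subtype.ext (funext₂ fun _ _ => wedge_add_right _ _ _)
  map_smul' _ _ := Subtype.ext (funext₂ fun _ _ => wedge_smul_right _ _ _)

theorem J_M (U : UpL2 Γ) (hw : IsFn Γ w) (Ω : tst Γ k) :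
    tstJ U k (tstM hw k Ω) = U.m w k (tstJ U k Ω) := (U.m_j hw Ω.2).symm

theorem tst_D (U : UpL2 Γ) (k : ℕ) (a : U.H k) (b : U.H (k + 1)) :
    U.D k a b ↔ ∃ α, a = tstJ U k α ∧ b = tstJ U (k + 1) (tstD Γ k α) := by
  have key : ∀ α : tst Γ k, tstJ U (k + 1) (tstD Γ k α) = U.j (k + 1) (dF α.1) := fun α =>
    U.j_congr (IsT.dF α.2) fun _ _ hy => indicator_of_mem hy _
  exact ⟨fun ⟨Ω, h, h1, h2⟩ => ⟨⟨Ω, h⟩, h1, h2.trans (key ⟨Ω, h⟩).symm⟩,
    fun ⟨α, h1, h2⟩ => ⟨α.1, α.2, h1, h2.trans (key α)⟩⟩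

theorem sum_m_le (U : UpL2 Γ) {ι : Type} [Fintype ι] {ρ : ι → Fn P} (h : ∀ i, IsFn Γ (ρ i))
    (h0 : ∀ i p, ∀ y ∈ DR c, 0 ≤ ρ i p y) (h1 : ∀ p, ∀ y ∈ DR c, ∑ i, ρ i p y = 1)
    (β : ι → U.H k) : ‖∑ i, U.m (ρ i) k (β i)‖ ^ 2 ≤ ∑ i, ‖β i‖ ^ 2 := by
  set z := ∑ i, U.m (ρ i) k (β i) with hz
  have h2 : ∑ i, ⟪U.m (ρ i) k z, z⟫_ℝ = ‖z‖ ^ 2 := by
    rw [← sum_inner, ← U.m_sum _ fun i _ => h i, U.m_congr (IsFn.sum _ fun i _ => h i)
      (IsFn.const 1) h1, U.m_const, one_smul, real_inner_self_eq_norm_sq]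
  have h3 : ∑ i, 2 * ⟪U.m (ρ i) k (β i), z⟫_ℝ ≤ ∑ i, (‖β i‖ ^ 2 + ⟪U.m (ρ i) k z, z⟫_ℝ) := by
    refine Finset.sum_le_sum fun i _ => ?_
    have h4 := U.m_pos (h i) (h0 i) (β i - z)
    have h5 := U.m_le_const (h i) (t := 1) (fun p y hy => (Finset.single_le_sum
      (fun i _ => h0 i p y hy) (Finset.mem_univ i)).trans_eq (h1 p y hy)) (β i)
    rw [map_sub, inner_sub_left, inner_sub_right, inner_sub_right, U.m_sym (h i) z (β i),
      real_inner_comm (U.m (ρ i) k (β i)) z] at h4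
    linarith
  rw [← Finset.mul_sum, ← sum_inner, ← hz, Finset.sum_add_distrib, h2,
    real_inner_self_eq_norm_sq] at h3
  linarith

open Classical in
theorem card_go (p : P) (n : ℕ) (s : Finset (P × Fin n)) (h : ∀ i ∈ s, ∃ o, Γ.go o p = i.1) :
    s.card ≤ Fintype.card (Option (Ed c)) * n := by
  have h1 : s ⊆ (Finset.univ.image fun o => Γ.go o p) ×ˢ Finset.univ := fun i hi =>
    Finset.mem_product.2 ⟨Finset.mem_image.2 ((h i hi).imp fun o ho => ⟨Finset.mem_univ o, ho⟩),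
      Finset.mem_univ _⟩
  refine (Finset.card_le_card h1).trans ?_
  rw [Finset.card_product, Finset.card_univ, Fintype.card_fin]
  exact Nat.mul_le_mul_right _ Finset.card_image_le

end

theorem exists_cech (c : Par) (L : ℕ) : ∃ (A : ℝ) (N n : ℕ), 0 ≤ A ∧
    ∀ {P : Type} [Fintype P] {Γ : Gl c P} (U : UpL2 Γ), ∃ 𝒞 : Cech U.H (P × Fin n) A N L,
      ∀ k a b, U.D k a b ↔ ∃ α, a = 𝒞.J k α ∧ b = 𝒞.J (k + 1) (𝒞.d k α) := by
  classical
  obtain ⟨r, r0, r1, r2, r3⟩ := exists_radii (c := c) isCompact_Kw Kw_subset L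
  obtain ⟨n, x, φ, x1, φ0, φ1, φ2, φ3⟩ := exists_pou (isCompact_Kw (c := c)) (r0 0)
  have rm : ∀ {m m'}, m ≤ m' → m' ≤ L → r m ≤ r m' := fun {m m'} h h' => by
    induction h with
    | refl => exact le_rfl
    | step _ ih => exact (ih (by omega)).trans (by linarith [r1 _ h', r0 ‹ℕ›])
  have hD : ∀ j, ∀ m ≤ L, closedBall (x j) (r m) ⊆ Str c (x j 2 - Real.pi) := fun j m hm =>
    (closedBall_subset_closedBall (by linarith [rm hm le_rfl, r0 L])).trans (r2 _ (x1 j))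
  choose K ζ z1 z2 z3 z6 z4 z5 using fun j =>
    exists_cutoff (isCompact_closedBall (x j) (r L)) (isOpen_Str _) (hD j L le_rfl)
  have hb : ∀ j, closedBall (x j) (r 0 / 2) ⊆ ball (x j) (r 0) := fun j =>
    closedBall_subset_ball (half_lt_self (r0 0))
  have hb' := fun j => ((hb j).trans ball_subset_closedBall).trans (hD j 0 (Nat.zero_le L))
  obtain ⟨g, gρ, g0, g1⟩ := exists_weights (fun j => isG_of (isCompact_closedBall _ _) (hb' j)
    (φ0 j).contDiffOn fun y _ => φ1 j y) φ2 φ3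
  have gζ : ∀ j, IsG c (x j 2 - Real.pi) (K j) (ζ j) := fun j =>
    isG_of (z1 j) (z2 j) (z3 j).contDiffOn fun y _ h => z6 j y h
  have ζ1 : ∀ j, ∀ m ≤ L, ∀ y ∈ ball (x j) (r m), ∀ᶠ z in 𝓝 y, ζ j z = 1 := fun j m hm y hy =>
    z5 j y (ball_subset_closedBall (ball_subset_ball (rm hm le_rfl) hy))
  obtain ⟨A, ⟨⟨⟨⟨A1, A2⟩, A3⟩, A4⟩, A5⟩⟩ :=
    (((((eventually_all.2 fun j => (eventually_all_finite (finite_le_nat L)).2 fun k _ =>
      wed_le (gρ j) k).and (eventually_all.2 fun j => one_le (gζ j))).and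
      (eventually_all.2 fun j => const_le (r0 0) (hD j 0 (Nat.zero_le L)))).and
      (eventually_all.2 fun j => (eventually_all_finite (finite_le_nat L)).2 fun k _ =>
        eventually_all.2 fun m : Fin L => prim_chart (r0 m) (by linarith [r1 m m.2, r0 m])
          (hD j (m + 1) m.2) k)).and
      (eventually_ge_atTop ((Fintype.card (Option (Ed c)) * n : ℕ) : ℝ))).exists
  refine ⟨A, Fintype.card (Option (Ed c)) * n, n, (Nat.cast_nonneg _).trans A5, ?_⟩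
  intro P _ Γ U
  have fρ := fun i : P × Fin n => (gρ i.2).isFn (Γ := Γ) i.1
  have fζ := fun i : P × Fin n => (gζ i.2).isFn (Γ := Γ) i.1
  have ρ0 : ∀ (i : P × Fin n) p, ∀ y ∈ DR c,
      0 ≤ extF Γ i.1 (x i.2 2 - Real.pi) (g i.2) p y := fun i p y hy => by
    rcases (gρ i.2).extF_cases i.1 p hy with h | ⟨y', h1, h⟩
    · exact h.ge
    · exact h ▸ g0 _ _ (hb' _ h1).1
  have ρ1 := fun p y (hy : y ∈ DR c) => sum_extF (Γ := Γ) (p := p) gρ g1 hy
  have hDR : ∀ j, ∀ m ≤ L, ∀ y ∈ ball (x j) (r m), y ∈ Str c (x j 2 - Real.pi) := fun j m hm y hy =>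
    hD j m hm (ball_subset_closedBall hy)
  refine ⟨{
    T := fun k => tst Γ k
    E := fun k => Alt 3 k
    X := Σ _ : P, DR c
    J := tstJ U
    ev := tstEv Γ
    d := tstD Γ
    O := fun m i => sat Γ i.1 (ball (x i.2) (r m))
    nb := fun i => Finset.univ.filter fun i' =>
      (sat Γ i.1 (ball (x i.2) (r 0)) ∩ sat Γ i'.1 (ball (x i'.2) (r 0))).Nonempty
    ρ := fun i z => extF Γ i.1 (x i.2 2 - Real.pi) (g i.2) z.1 z.2
    w := fun i z => wedgeL (fderiv ℝ (extF Γ i.1 (x i.2 2 - Real.pi) (g i.2) z.1) z.2)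
    mul := fun i => tstM (fρ i)
    wed := fun i => tstW (fρ i)
    cut := fun i k => tstM (fζ i) k
    one := fun i => ⟨_, (gζ i.2).isT i.1⟩
    u := f0 1
    J_ext := fun k α h => (U.j_congr IsT.zero fun p y hy => h ⟨p, y, hy⟩).trans U.j_zero
    isOpen := fun m i => isOpen_sat _ isOpen_ball
    ne := fun i => ⟨_, mem_sat_self (Kw_subset (x1 i.2)) (mem_ball_self (r0 0))⟩
    d_loc := fun k α S hS h z hz => ?_
    dd := fun k α z => ?_
    mem_nb := fun i i' => by simp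
    card_nb := fun i => card_go (Γ := Γ) i.1 n _ fun i' h => ?_
    nest := fun m hm i i' h => r3 m hm _ (x1 _) _ (x1 _) Γ _ _
      ((Finset.mem_filter.1 h).2.mono (inter_subset_inter
        (sat_mono (ball_subset_ball (rm (Nat.zero_le m) hm.le)))
        (sat_mono (ball_subset_ball (rm (Nat.zero_le m) hm.le)))))
    ev_mul := fun _ _ _ _ => rfl
    ev_wed := fun _ _ _ _ => rfl
    d_mul := fun i k α z => ?_
    sum_ρ := fun z => ρ1 _ _ z.2.2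
    sum_w := fun z k v => ?_
    supp := fun i z h => ?_
    norm_mul := fun i k α => ?_
    norm_wed := fun i k hk α => A1 i.2 k hk U i.1 α.1 α.2
    glue := fun k β => ?_
    ev_cut := fun i k α z hz => ?_
    norm_cut := fun k α => ?_
    ev_one := fun i z hz => const_on_sat ((gζ i.2).isT i.1) (fun y hy => ?_) hz
    d_one := fun i z hz => ?_
    norm_one := fun i => A2 i.2 U i.1
    const := fun m hm i α h => ?_
    le_norm := fun i α t h => A3 i.2 U i.1 α.1 t α.2 fun y hy => ?_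
    prim := fun m hm k hk i α h => ?_ }, tst_D U⟩
  · rw [ev_D]
    have h1 : {y : DR c | (⟨z.1, y⟩ : Σ _ : P, DR c) ∈ S} ∈ 𝓝 z.2 :=
      (hS.preimage continuous_sigmaMk).mem_nhds hz
    exact dF_eq_zero (mem_of_superset (isOpen_DR.isOpenMap_subtype_val.image_mem_nhds h1)
      fun _ ⟨y, hy, e⟩ => e ▸ h _ hy)
  · exact (ev_D _ z).trans ((dF_congr (Ω := dF α.1) (fun _ _ hy => indicator_of_mem hy _) _
      z.2.2).trans (IsT.dF_dF α.2 _ z.2.2))
  · obtain ⟨z, ⟨o, y, -, h1, h2⟩, o', y', -, h3, h4⟩ := (Finset.mem_filter.1 h).2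
    obtain ⟨o'', -, h5⟩ := h1.symm.trans h3
    exact ⟨o'', by rw [h5, ← h2, Gl.go_go, h4]⟩
  · rw [ev_D, ev_D]
    exact (Tr.ofFn (fρ i)).dF_mul α.2 _ z.2.2
  · have h1 : fderiv ℝ (fun y => ∑ i : P × Fin n,
        extF Γ i.1 (x i.2 2 - Real.pi) (g i.2) z.1 y) z.2 = 0 := by
      rw [EventuallyEq.fderiv_eq (f := fun _ => 1)
        (eventually_of_mem (isOpen_DR.mem_nhds z.2.2) (ρ1 z.1)), fderiv_fun_const, Pi.zero_apply]
    rw [fderiv_fun_sum fun i _ => (fρ i).differentiableAt _ z.2.2] at h1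
    let F : (Eu 3 →L[ℝ] ℝ) →+ Alt 3 (k + 1) :=
      ⟨⟨fun ℓ => wedge ℓ v, wedge_zero_left v⟩, fun ℓ ℓ' => wedge_add_left ℓ ℓ' v⟩
    exact (map_sum F _ _).symm.trans (h1 ▸ map_zero F)
  · have h1 : extF Γ i.1 (x i.2 2 - Real.pi) (g i.2) z.1 =ᶠ[𝓝 z.2.1] fun _ => 0 :=
      (gρ i.2).extF_off z.2.2 fun h' => h (sat_mono (hb _) h')
    refine ⟨h1.self_of_nhds, fun k v => ?_⟩
    rw [h1.fderiv_eq, fderiv_fun_const]
    exact wedge_zero_left v
  · refine le_of_sq_le_sq ?_ (norm_nonneg _)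
    rw [J_M, U.norm_m_sq (fρ i), ← one_mul (_ ^ 2)]
    exact U.m_le_const (fρ i).sq (fun p y hy => pow_le_one₀ (ρ0 i p y hy) ((Finset.single_le_sum
      (fun i _ => ρ0 i p y hy) (Finset.mem_univ i)).trans_eq (ρ1 p y hy))) _
  · simp only [map_sum, J_M]
    exact sum_m_le U fρ ρ0 ρ1 _
  · obtain ⟨o, y, h1, h2, h3⟩ := hz
    change extF Γ i.1 (x i.2 2 - Real.pi) (ζ i.2) z.1 z.2 • α.1 z.1 z.2 = α.1 z.1 z.2
    rw [extF_link h2 (hDR _ L le_rfl y h1) h3, (ζ1 _ L le_rfl y h1).self_of_nhds, one_smul]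
  · simp only [J_M, U.norm_m_sq (fζ _)]
    rw [← sum_inner, ← U.m_sum _ fun i _ => (fζ i).sq]
    refine U.m_le_const (IsFn.sum _ fun i _ => (fζ i).sq) (fun p y hy => le_trans ?_ A5) _
    rw [← Finset.sum_filter_ne_zero]
    refine (Finset.sum_le_card_nsmul _ _ 1 fun i _ => ?_).trans ?_
    · rcases (gζ i.2).extF_cases i.1 p hy with h | ⟨y', -, h⟩ <;> rw [h]
      · simp
      · exact pow_le_one₀ (z4 _ _).1 (z4 _ _).2
    · rw [nsmul_one, Nat.cast_le]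
      refine card_go (Γ := Γ) p n _ fun i h => by_contra fun h' => (Finset.mem_filter.1 h).2 ?_
      rw [((gζ i.2).extF_off hy fun ⟨o, _, _, _, h⟩ => h' ⟨o, h⟩).self_of_nhds,
        zero_pow two_ne_zero]
  · rw [extC_self (hDR _ 0 (Nat.zero_le L) y hy), (ζ1 _ 0 (Nat.zero_le L) y hy).self_of_nhds]
  · rw [ev_D]
    refine eq_on_sat ((gζ i.2).isT i.1).dF IsT.zero (fun y hy => ?_) hz
    rw [dF_extC_self (hDR _ 0 (Nat.zero_le L) y hy), EventuallyEq.extDeriv_eq (ω₂ := fun _ => f0 1)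
      ((ζ1 _ 0 (Nat.zero_le L) y hy).mono fun z hz => by simp only [hz])]
    rw [extDeriv, fderiv_fun_const]
    exact map_zero (ContinuousAlternatingMap.alternatizeUncurryFinCLM ℝ (Eu 3) ℝ)
  · obtain ⟨v, hv⟩ := const_of_closed (x i.2) (r m) (α := α.1 i.1)
      (fun y hy => (IsT.differentiableAt α.2 _ (hDR _ m hm y hy).1).differentiableWithinAt)
      fun y hy => (ev_D α ⟨i.1, y, (hDR _ m hm y hy).1⟩).symm.trans (h _ (mem_sat_self _ hy))
    refine ⟨c0 v, fun z hz => ?_⟩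
    rw [← f0_smul, mul_one]
    exact const_on_sat α.2 (fun y hy => by rw [hv y hy, f0_c0]) hz
  · have h1 := h _ (mem_sat_self (hDR _ 0 (Nat.zero_le L) y hy).1 hy)
    rwa [← f0_smul, mul_one] at h1
  · obtain ⟨Θ, h1, h2, h3⟩ := A4 i.2 k hk ⟨m, hm⟩ U i.1 α.1 α.2 fun y hy =>
      (ev_D α ⟨i.1, y, (hDR _ (m + 1) hm y hy).1⟩).symm.trans (h _ (mem_sat_self _ hy))
    exact ⟨⟨Θ, h1⟩, fun z hz => (ev_D _ z).trans (eq_on_sat h1.dF α.2 h2 hz), h3⟩

end Pool.Agent.Lib.MP_570070_gt.An
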