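import Pool.Agent.Lib.MP_570070_gt.Dc3.Lk

/-! Extension of forms with compact support in one period of a piece. -/

open MeasureTheory Filter Topology Set Metric
open scoped ContDiff InnerProductSpace

namespace Pool.Agent.Lib.MP_570070_gt.An

noncomputable section

variable {c : Par} {P : Type} {Γ : Gl c P} {k : ℕ}

/-- Reduction modulo the period. -/
def red (b : ℝ) (y : Eu 3) : Eu 3 := y + (-toIocDiv Real.two_pi_pos b (y 2)) • per

variable {b : ℝ} {y y' : Eu 3} {o : Option (Ed c)} {K S : Set (Eu 3)} {α : Eu 3 → Alt 3 k}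
  {p₀ p : P} {Ω Ω' : Fam P k}

theorem red_two (b : ℝ) (y : Eu 3) : red b y 2 ∈ Ioc b (b + 2 * Real.pi) := by
  simpa [red, sub_eq_add_neg] using sub_toIocDiv_zsmul_mem_Ioc Real.two_pi_pos b (y 2)

theorem red_eq {n : ℤ} (h : (y + n • per) 2 ∈ Ioc b (b + 2 * Real.pi)) :
    red b y = y + n • per := by
  rw [red, toIocDiv_eq_of_sub_zsmul_mem_Ioc Real.two_pi_pos (n := -n) (by simpa using h), neg_neg]

theorem red_of_link (h : Link (none : Option (Ed c)) y y') (hb : y' ∈ Str c b) : red b y = y' := by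
  obtain ⟨-, n, rfl⟩ := h
  exact red_eq (Ioo_subset_Ioc_self hb.2)

theorem red_self (hy : y ∈ Str c b) : red b y = y := red_of_link (Link.refl hy.1) hy

theorem link_red (b : ℝ) (hy : y ∈ DR c) : Link (none : Option (Ed c)) y (red b y) := ⟨hy, _, rfl⟩

theorem red_per (b : ℝ) (y : Eu 3) : red b (y + per) = red b y := by
  have e : y + per + (-toIocDiv Real.two_pi_pos b (y 2) - 1) • per = red b y := by
    rw [red, sub_smul, one_smul]
    abel
  exact (red_eq (e ▸ red_two b y)).trans e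

theorem integral_Str {F : Eu 3 → ℝ} (h : ∀ y ∈ DR c, F (y + per) = F y) (b : ℝ) :
    ∫ y in Str c b, F y = ∫ y in Cell c, F y := by
  have hm : ∀ b : ℝ, MeasurableSet {y : Eu 3 | y 2 ∈ Ioc b (b + 2 * Real.pi)} := fun b =>
    measurableSet_Ioc.preimage (measurable_pi_apply 2)
  have hf : ∀ b : ℝ, IsAddFundamentalDomain (AddSubgroup.zmultiples per)
      {y : Eu 3 | y 2 ∈ Ioc b (b + 2 * Real.pi)} volume := fun b => by
    refine IsAddFundamentalDomain.mk' (hm b).nullMeasurableSet fun y => ?_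
    refine ⟨⟨_, -toIocDiv Real.two_pi_pos b (y 2), rfl⟩, ?_, ?_⟩
    · have := red_two b y
      rwa [red, add_comm y] at this
    · rintro ⟨_, n, rfl⟩ hn
      have h1 : (n • per + y) 2 ∈ Ioc b (b + 2 * Real.pi) := hn
      rw [add_comm _ y] at h1
      exact Subtype.ext (add_left_cancel (red_eq h1)).symm
  have key : ∀ b : ℝ, ∫ y in Str c b, F y =
      ∫ y in {y : Eu 3 | y 2 ∈ Ioc b (b + 2 * Real.pi)}, (DR c).indicator F y := fun b => by
    rw [setIntegral_indicator isOpen_DR.measurableSet]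
    refine setIntegral_congr_set ?_
    filter_upwards [measure_eq_zero_iff_ae_notMem.1 (Measure.pi_hyperplane
      (fun _ : Fin 3 => (volume : Measure ℝ)) 2 (b + 2 * Real.pi))] with y hy
    exact propext ⟨fun h => ⟨Ioo_subset_Ioc_self h.2, h.1⟩,
      fun h => ⟨h.2, h.1.1, lt_of_le_of_ne h.1.2 hy⟩⟩
  have e : Cell c = Str c 0 := by rw [Cell, Str, zero_add]
  rw [e, key, key]
  refine (hf b).setIntegral_eq (hf 0) ?_
  rintro ⟨_, n, rfl⟩ y
  change (DR c).indicator F (n • per + y) = _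
  rw [add_comm]
  by_cases hy : y ∈ DR c
  · rw [indicator_of_mem hy, indicator_of_mem (add_zsmul_per_mem hy n), per_int h hy]
  · rw [indicator_of_notMem hy, indicator_of_notMem fun h1 => hy ?_]
    simpa using add_zsmul_per_mem h1 (-n)

/-- The extension of a form given in one period of the piece p₀. -/
def extC (Γ : Gl c P) (p₀ : P) (b : ℝ) (α : Eu 3 → Alt 3 k) : Fam P k :=
  extP Γ p₀ fun y => α (red b y)

theorem extP_flip' {e : Ed c} (hα : ∀ y ∈ DR c, α (y + per) = α y) (h : Γ.σ e p = p₀)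
    (f : Flip e y y') : extP Γ p₀ α p y = (α y').compContinuousLinearMap (fl e y y') := by
  have f' := flip_flipPt f.1 f.sc_lt
  obtain ⟨n, rfl⟩ := f'.unique f
  rw [extP, if_neg fun h1 => Γ.ne e p (h.trans h1.symm),
    sum_collar f.1 (e := e) (by linarith [f.sc_lt]) _ fun e' h1 => if_neg fun h2 => by
      linarith [h2.2], if_pos ⟨h, f.sc_lt⟩, per_int hα f'.2.1,
    fl_congr (e := e) (y := y) (y' := flipPt e y) (z := y) (z' := flipPt e y + n • per) rfl rfl
      (by simp) (by simp)]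

theorem extC_link (hl : Link o y y') (hb : y' ∈ Str c b) (hp : Γ.go o p = p₀) :
    extC Γ p₀ b α p y = (α y').compContinuousLinearMap (lk o y y') := by
  cases o with
  | none =>
    rw [← hp, extC]
    exact (congrFun (extP_self _ _) y).trans (congrArg α (red_of_link hl hb))
  | some e =>
    rw [extC, extP_flip' (fun z _ => by rw [red_per]) hp hl, red_self hb]
    rfl

theorem extC_self (hy : y ∈ Str c b) : extC Γ p₀ b α p₀ y = α y :=
  extC_link (Link.refl hy.1) hy rfl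

theorem dF_extC_self (hy : y ∈ Str c b) : dF (extC Γ p₀ b α) p₀ y = extDeriv α y :=
  EventuallyEq.extDeriv_eq
    (eventually_of_mem ((isOpen_Str b).mem_nhds hy) fun _ hz => extC_self hz)

/-- Smooth forms with support in a compact subset of one period. -/
structure IsL (c : Par) (b : ℝ) (K : Set (Eu 3)) (α : Eu 3 → Alt 3 k) : Prop where
  cpt : IsCompact K
  sub : K ⊆ Str c b
  smooth : ContDiffOn ℝ ∞ α (DR c)
  supp : ∀ y ∈ DR c, α y ≠ 0 → y ∈ K

theorem IsL.subDR (h : IsL c b K α) : K ⊆ DR c := h.sub.trans (Str_subset b)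

theorem exists_sc_bd (hK : IsCompact K) (hD : K ⊆ DR c) :
    ∃ a, -1 < a ∧ ∀ y ∈ K, ∀ e : Ed c, a ≤ sc e y := by
  have h : ∀ e : Ed c, ∀ᶠ a in 𝓝[>] (-1 : ℝ), ∀ y ∈ K, a ≤ sc e y := fun e => by
    obtain ⟨a, h1, h2⟩ := hK.exists_forall_le' ((contDiffOn_sc e).continuousOn.mono hD)
      fun y hy => (hD hy e).2
    exact eventually_of_mem (Ioo_mem_nhdsGT h1) fun a' ha y hy => ha.2.le.trans (h2 y hy)
  obtain ⟨a, h1, h2⟩ := ((eventually_all.2 h).and self_mem_nhdsWithin).exists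
  exact ⟨a, h2, fun y hy e => h1 e y hy⟩

theorem IsL.isP (h : IsL c b K α) : ∃ a, IsP c a fun y => α (red b y) := by
  obtain ⟨a, h1, h2⟩ := exists_sc_bd h.cpt h.subDR
  refine ⟨a, h1, fun y hy => ContDiffAt.contDiffWithinAt ?_, fun y _ => by rw [red_per],
    fun y hy h3 e => ?_⟩
  · by_cases h3 : ∃ y' ∈ K, Link (none : Option (Ed c)) y y'
    · obtain ⟨_, h4, -, n, rfl⟩ := h3
      have h5 : ContDiff ℝ ∞ fun z : Eu 3 => z + n • per := contDiff_id.add contDiff_const
      refine ((h.smooth.contDiffAt (isOpen_DR.mem_nhds (h.subDR h4))).comp y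
        h5.contDiffAt).congr_of_eventuallyEq ?_
      filter_upwards [h5.continuous.continuousAt.eventually ((isOpen_Str b).mem_nhds (h.sub h4))]
        with z hz
      exact congrArg α (red_eq (Ioo_subset_Ioc_self hz.2))
    · refine (contDiffAt_const (c := 0)).congr_of_eventuallyEq ?_
      filter_upwards [isOpen_DR.mem_nhds hy, h.cpt.eventually_forall_of_forall_eventually
        (P := fun z y' => ¬Link (none : Option (Ed c)) z y')
        fun y' h4 => not_link hy (h.subDR h4) fun h5 => h3 ⟨y', h4, h5⟩] with z hz h4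
      exact by_contra fun h5 => h4 _ (h.supp _ (link_red b hz).mem' h5) (link_red b hz)
  · rw [← sc_congr e (y := y) (y' := red b y) (by simp [red]) (by simp [red])]
    exact h2 _ (h.supp _ (link_red b hy).mem' h3) e

theorem IsL.isT (h : IsL c b K α) (p₀ : P) : IsT Γ (extC Γ p₀ b α) :=
  let ⟨_, h1⟩ := h.isP
  h1.isT p₀

theorem IsL.ne (h : IsL c b K α) (hy : y ∈ DR c) (h1 : extC Γ p₀ b α p y ≠ 0) :
    ∃ o, ∃ y' ∈ K, Link o y y' ∧ Γ.go o p = p₀ := by
  obtain ⟨a, h2⟩ := h.isP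
  rcases h2.inPiece p₀ p y hy h1 with rfl | ⟨e, h3, h4⟩
  · rw [extC, extP_self] at h1
    exact ⟨none, _, h.supp _ (link_red b hy).mem' h1, link_red b hy, rfl⟩
  · have f := flip_flipPt hy h4
    rw [extC, extP_flip h2 h3 f] at h1
    exact ⟨some e, _, h.supp _ (link_red b f.2.1).mem' fun h5 => h1 (by rw [h5]; rfl),
      f.add_per_right _, h3⟩

theorem IsL.off (h : IsL c b K α) (hy : y ∈ DR c) (h1 : ⟨p, ⟨y, hy⟩⟩ ∉ sat Γ p₀ K) :
    ∀ᶠ z in 𝓝 y, extC Γ p₀ b α p z = 0 := by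
  filter_upwards [isOpen_DR.mem_nhds hy, off_sat h.cpt h.subDR hy h1] with z hz h2
  by_contra h3
  obtain ⟨o, y', h4, h5, h6⟩ := h.ne hz h3
  exact h2 o h6 y' h4 h5

theorem IsL.inner (U : UpL2 Γ) (h : IsL c b K α) (p₀ : P) (hΩ : IsT Γ Ω) :
    ⟪U.j k (extC Γ p₀ b α), U.j k Ω⟫_ℝ =
      ∫ y in Str c b, ipUp c y (α y) (Ω p₀ y) * lam c y ^ 2 := by
  obtain ⟨a, h1⟩ := h.isP
  have h2 := h.isT (Γ := Γ) p₀
  rw [U.piece k p₀ _ _ h2 hΩ (h1.inPiece p₀), ← integral_Str (fun y hy => by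
    rw [h2.per p₀ y hy, hΩ.per p₀ y hy, ipUp_congr (y := y) (z := y + per) (by simp) (by simp),
      lam_congr (y := y) (y' := y + per) (by simp) (by simp)]) b]
  exact setIntegral_congr_fun (isOpen_Str b).measurableSet fun y hy => by
    simp only [extC_self hy]

theorem IsL.norm_sq (U : UpL2 Γ) (h : IsL c b K α) (p₀ : P) :
    ‖U.j k (extC Γ p₀ b α)‖ ^ 2 = ∫ y in Str c b, ipUp c y (α y) (α y) * lam c y ^ 2 := by
  rw [← real_inner_self_eq_norm_sq, h.inner U p₀ (h.isT p₀)]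
  exact setIntegral_congr_fun (isOpen_Str b).measurableSet fun y hy => by simp only [extC_self hy]

theorem IsL.integrableOn {β : Eu 3 → Alt 3 k} (h : IsL c b K α) (hβ : ContinuousOn β (DR c)) :
    IntegrableOn (fun y => ipUp c y (α y) (β y) * lam c y ^ 2) (Str c b) :=
  ((((continuousOn_ipUp h.smooth.continuousOn hβ).mul (contDiffOn_lam.continuousOn.pow 2)).mono
    h.subDR).integrableOn_compact h.cpt).of_forall_sdiff_eq_zero (isOpen_Str b).measurableSet
      fun y hy => by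
        simp [of_not_not (mt (h.supp y hy.1.1) hy.2), ipUp_zero_left]

theorem UpL2.int_le_norm (U : UpL2 Γ) (h : IsT Γ Ω) (p : P) (hK : IsCompact K)
    (hs : K ⊆ Str c b) : ∫ y in K, ipUp c y (Ω p y) (Ω p y) * lam c y ^ 2 ≤ ‖U.j k Ω‖ ^ 2 := by
  obtain ⟨K', w, a1, a2, a3, a4, a5, a6⟩ := exists_cutoff hK (isOpen_Str b) hs
  have hL : IsL c b K' fun y => w y • Ω p y := ⟨a1, a2, a3.contDiffOn.smul (h.smooth p),
    fun y _ h6 => a4 y (left_ne_zero_of_smul h6)⟩
  have h1 := hL.inner U p h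
  have h2 := hL.norm_sq U p
  have i1 := hL.integrableOn (h.smooth p).continuousOn
  have i2 := hL.integrableOn hL.smooth.continuousOn
  simp only [ipUp_smul_left, ipUp_smul_right] at h1 h2 i1 i2
  have h3 : ‖U.j k (extC Γ p b fun y => w y • Ω p y)‖ ^ 2 ≤
      ∫ y in Str c b, w y * ipUp c y (Ω p y) (Ω p y) * lam c y ^ 2 := by
    rw [h2]
    refine setIntegral_mono_on i2 i1 (isOpen_Str b).measurableSet fun y hy => ?_
    refine mul_le_mul_of_nonneg_right (mul_le_mul_of_nonneg_left ?_ (a5 y).1) (sq_nonneg _)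
    exact mul_le_of_le_one_left (ipUp_self_nonneg _) (a5 y).2
  have h4 := real_inner_le_norm (U.j k (extC Γ p b fun y => w y • Ω p y)) (U.j k Ω)
  rw [h1] at h4
  refine le_trans ?_ (show ∫ y in Str c b, w y * ipUp c y (Ω p y) (Ω p y) * lam c y ^ 2 ≤ _ by
    nlinarith [sq_nonneg (‖U.j k (extC Γ p b fun y => w y • Ω p y)‖ - ‖U.j k Ω‖)])
  rw [setIntegral_congr_fun hK.measurableSet (g := fun y => w y * ipUp c y (Ω p y) (Ω p y) *
    lam c y ^ 2) fun y hy => by simp only [(a6 y hy).self_of_nhds, one_mul]]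
  exact setIntegral_mono_set i1 (Eventually.of_forall fun y =>
    mul_nonneg (mul_nonneg (a5 y).1 (ipUp_self_nonneg _)) (sq_nonneg _)) hs.eventuallyLE

end

end Pool.Agent.Lib.MP_570070_gt.An
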